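import Pool.Agent.Y531.Snet.Num

/-!
# The loss of a network with a polynomial at the output
-/

set_option autoImplicit false
set_option linter.unusedSectionVars false
set_option maxHeartbeats 1000000
set_option synthInstance.maxHeartbeats 200000

namespace Pool.Agent.Y531.Snet

open MvPolynomial Pool.Agent.W942 Pool.Agent.Y531 Pool.Agent.Y531.Mul Pool.Agent.Y531.Hit
open Pool.Agent.Y531.Hlim Pool.Agent.Y531.Sgen

/-- **The loss.** -/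
theorem exists_loss2 (a b h c₀ Δ e N : ℕ) (hce : c₀ ≤ e) (hd : 0 < a + b) (hN : 1 ≤ N) :
    ∃ K : ℝ, 1 ≤ K ∧
      (∀ (J : Type) [Fintype J], Fintype.card J ≤ N ^ c₀ → ∀ p : MvPolynomial J ℝ,
        PolyLimit N c₀ Δ ((a + b) * ((Δ + 1) * (Δ + 2))) p → Mild a b h (2 * Δ + 2) K p) ∧
      ∀ n' s m : ℕ, n' ≤ N ^ e → s ≤ N ^ c₀ → m ^ ((a + b) * ((Δ + 1) * (Δ + 2))) ≤ N →
        K * (((n' : ℝ) + s + 1) * rcost n' s m (a + b) K ^ (Δ + 1)) ≤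
          ((3 * (6 ^ (Δ + 1) * 2 ^ (2 * (a + b) ^ 2 * (Δ + 1)))) *
            (3 * ((bigA Δ (a + b)) ^ (Δ + 1) * 2 ^ ((a + b) * ((Δ + 1) * (Δ + 2))))) : ℕ) *
            (N:ℝ) ^ (e + 2 * e * (Δ + 1) + (e + (2 * e + 2 * e * (Δ + 1)) * (Δ + 1)) + 1) := by
  classical
  set d := a + b with hdd
  set q₀ := d * ((Δ + 1) * (Δ + 2)) with hq₀
  have hq0 : q₀ ≠ 0 := by positivity
  set μ := Nat.findGreatest (fun m => m ^ q₀ ≤ N) N with hμ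
  have hμ1 : μ ^ q₀ ≤ N := by
    have h1 := Nat.findGreatest_spec (P := fun m => m ^ q₀ ≤ N) (n := N) (m := 0)
      (Nat.zero_le _) (by rw [zero_pow hq0]; exact Nat.zero_le _)
    exact h1
  have hμ2 : ∀ m, m ^ q₀ ≤ N → m ≤ μ := fun m hm =>
    Nat.le_findGreatest ((Nat.le_self_pow hq0 m).trans hm) hm
  have hNR : (1:ℝ) ≤ N := by exact_mod_cast hN
  set E : ℝ := (N:ℝ) ^ e with hE
  have hE1 : 1 ≤ E := one_le_pow₀ hNR
  set s₀ := N ^ c₀ with hs₀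
  have hs₀E : (s₀ : ℝ) ≤ E := by
    rw [hs₀, Nat.cast_pow]
    exact pow_le_pow_right₀ hNR hce
  have hs₀0 : (0:ℝ) ≤ s₀ := Nat.cast_nonneg _
  have hc1 : 1 ≤ Hit.cost s₀ s₀ μ d := one_le_cost _ _ _ _
  set K : ℝ := ((s₀:ℝ) + s₀ + 1) * Hit.cost s₀ s₀ μ d ^ (Δ + 1) with hK
  have hK1 : 1 ≤ K := one_le_mul_of_one_le_of_one_le (by linarith) (one_le_pow₀ hc1)
  refine ⟨K, hK1, ?_, ?_⟩
  · intro J _ hJ p hp T hT0 hTm ϑ hϑ0 hsc E' c₁ hE' hgood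
    obtain ⟨s', m', hs', hm', H⟩ := limit_good (a := a) (b := b) (h := h) hp
    have h1 := H hT0 hTm hϑ0 hsc E' c₁ hE' hgood
    refine h1.mono le_rfl ?_
    rw [← mul_assoc]
    refine mul_le_mul_of_nonneg_right ?_ hϑ0.le
    rw [hK]
    have h2 : ((Fintype.card J : ℕ):ℝ) ≤ s₀ := by exact_mod_cast hJ
    have h3 : (s':ℝ) ≤ s₀ := by exact_mod_cast hs'
    have h4 := cost_mono d hJ hs' (hμ2 m' hm')
    have h5 : 0 ≤ Hit.cost (Fintype.card J) s' m' d := zero_le_one.trans (one_le_cost _ _ _ _)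
    gcongr
  · intro n' s m hn' hs hm
    have hn'R : (n':ℝ) ≤ E := by rw [hE]; exact_mod_cast hn'
    have hsR : (s:ℝ) ≤ E := le_trans (by exact_mod_cast hs) hs₀E
    have hmμ := hμ2 m hm
    have hmR : (m:ℝ) ≤ μ := by exact_mod_cast hmμ
    have hn0 : (0:ℝ) ≤ n' := Nat.cast_nonneg _
    have hs0 : (0:ℝ) ≤ s := Nat.cast_nonneg _
    have hm0 : (0:ℝ) ≤ m := Nat.cast_nonneg _
    have hμ0 : (0:ℝ) ≤ μ := Nat.cast_nonneg _
    set U : ℝ := ((μ:ℝ) + 1) ^ d with hU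
    have hU1 : 1 ≤ U := one_le_pow₀ (by linarith)
    have hcU : Hit.cost s₀ s₀ μ d ≤ 6 * 2 ^ (2 * d ^ 2) * (E ^ 2 * U) := by
      rw [Hit.cost]
      calc ((s₀:ℝ) + s₀ + 1) * (((s₀:ℝ) + 1) * 2 ^ (2 * d ^ 2) * ((μ:ℝ) + 1) ^ d)
          ≤ (3 * E) * ((2 * E) * 2 ^ (2 * d ^ 2) * U) := by
            gcongr
            · linarith
            · linarith
        _ = _ := by ring
    have hKU : K ≤ (3 * (6 ^ (Δ + 1) * 2 ^ (2 * d ^ 2 * (Δ + 1)))) *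
        (E * (E ^ 2) ^ (Δ + 1) * U ^ (Δ + 1)) := by
      rw [hK]
      calc ((s₀:ℝ) + s₀ + 1) * Hit.cost s₀ s₀ μ d ^ (Δ + 1)
          ≤ (3 * E) * (6 * 2 ^ (2 * d ^ 2) * (E ^ 2 * U)) ^ (Δ + 1) := by
            have : 0 ≤ Hit.cost s₀ s₀ μ d := zero_le_one.trans hc1
            gcongr
            linarith
        _ = _ := by
            rw [mul_pow, mul_pow, mul_pow, ← pow_mul]
            ring
    have hmU : ((m:ℝ) + 1) ^ d * 2 ^ (d ^ 2) ≤ (3 * (6 ^ (Δ + 1) * 2 ^ (2 * d ^ 2 * (Δ + 1)))) *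
        (E * (E ^ 2) ^ (Δ + 1) * U ^ (Δ + 1)) := by
      have h1 : ((m:ℝ) + 1) ^ d ≤ U := by rw [hU]; gcongr
      have h2 : U ≤ U ^ (Δ + 1) := le_self_pow₀ hU1 (Nat.succ_ne_zero _)
      have h3 : (2:ℝ) ^ (d ^ 2) ≤ 2 ^ (2 * d ^ 2 * (Δ + 1)) := by
        refine pow_le_pow_right₀ (by norm_num) ?_
        nlinarith [Nat.zero_le (d ^ 2), Nat.zero_le Δ, Nat.zero_le (d ^ 2 * Δ)]
      have h4 : (1:ℝ) ≤ E * (E ^ 2) ^ (Δ + 1) := by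
        refine one_le_mul_of_one_le_of_one_le hE1 (one_le_pow₀ (one_le_pow₀ hE1))
      have h5 : (1:ℝ) ≤ 3 * 6 ^ (Δ + 1) := by
        have : (1:ℝ) ≤ 6 ^ (Δ + 1) := one_le_pow₀ (by norm_num)
        linarith
      calc ((m:ℝ) + 1) ^ d * 2 ^ (d ^ 2) ≤ U ^ (Δ + 1) * 2 ^ (2 * d ^ 2 * (Δ + 1)) := by
            refine mul_le_mul (h1.trans h2) h3 (by positivity) (by positivity)
        _ = 1 * (2 ^ (2 * d ^ 2 * (Δ + 1)) * (1 * U ^ (Δ + 1))) := by ring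
        _ ≤ (3 * 6 ^ (Δ + 1)) * (2 ^ (2 * d ^ 2 * (Δ + 1)) *
            ((E * (E ^ 2) ^ (Δ + 1)) * U ^ (Δ + 1))) := by gcongr
        _ = _ := by ring
    have hr0 : 0 ≤ rcost n' s m d K := zero_le_one.trans (one_le_rcost _ _ _ _ (zero_le_one.trans hK1))
    have hr : rcost n' s m d K ≤ (bigA Δ d : ℕ) * (N:ℝ) ^ (2 * e + 2 * e * (Δ + 1)) *
        U ^ (Δ + 1) := by
      rw [rcost]
      calc ((n':ℝ) + s + 1) * (K + ((m:ℝ) + 1) ^ d * 2 ^ (d ^ 2))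
          ≤ (3 * E) * ((3 * (6 ^ (Δ + 1) * 2 ^ (2 * d ^ 2 * (Δ + 1)))) *
            (E * (E ^ 2) ^ (Δ + 1) * U ^ (Δ + 1)) + (3 * (6 ^ (Δ + 1) *
              2 ^ (2 * d ^ 2 * (Δ + 1)))) * (E * (E ^ 2) ^ (Δ + 1) * U ^ (Δ + 1))) := by
            gcongr
            linarith
        _ = 18 * 6 ^ (Δ + 1) * 2 ^ (2 * d ^ 2 * (Δ + 1)) * (E ^ 2 * (E ^ 2) ^ (Δ + 1)) *
            U ^ (Δ + 1) := by ring
        _ = _ := by
            rw [bigA]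
            push_cast
            congr 2
            rw [hE, ← pow_mul, ← pow_mul, ← pow_add]
            congr 1
            ring
    have hUN : U ^ (Δ + 1) * (U ^ (Δ + 1)) ^ (Δ + 1) ≤ 2 ^ (d * ((Δ + 1) * (Δ + 2))) * N := by
      have h0 : U ^ (Δ + 1) * (U ^ (Δ + 1)) ^ (Δ + 1) = ((μ:ℝ) + 1) ^ q₀ := by
        rw [hU, ← pow_mul, ← pow_mul, ← pow_add, hq₀]
        congr 1
        ring
      rw [h0, ← hq₀]
      by_cases hμ0' : μ = 0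
      · rw [hμ0', Nat.cast_zero, zero_add, one_pow]
        exact one_le_mul_of_one_le_of_one_le (one_le_pow₀ (by norm_num)) hNR
      · have hm1 : (1:ℝ) ≤ μ := by exact_mod_cast Nat.one_le_iff_ne_zero.2 hμ0'
        have h1 : (μ : ℝ) + 1 ≤ 2 * μ := by linarith
        have h2 : ((μ:ℝ)) ^ q₀ ≤ N := by exact_mod_cast hμ1
        calc ((μ : ℝ) + 1) ^ q₀ ≤ (2 * μ) ^ q₀ := by gcongr
          _ = 2 ^ q₀ * (μ:ℝ) ^ q₀ := mul_pow _ _ _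
          _ ≤ _ := by gcongr
    have hK0 : 0 ≤ K := zero_le_one.trans hK1
    have hfac1 : ((n':ℝ) + s + 1) * rcost n' s m d K ^ (Δ + 1) ≤
        (3 * E) * ((bigA Δ d : ℕ) * (N:ℝ) ^ (2 * e + 2 * e * (Δ + 1)) *
          U ^ (Δ + 1)) ^ (Δ + 1) := by
      gcongr
      linarith
    calc K * (((n':ℝ) + s + 1) * rcost n' s m d K ^ (Δ + 1))
        ≤ ((3 * (6 ^ (Δ + 1) * 2 ^ (2 * d ^ 2 * (Δ + 1)))) *
          (E * (E ^ 2) ^ (Δ + 1) * U ^ (Δ + 1))) *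
          ((3 * E) * ((bigA Δ d : ℕ) * (N:ℝ) ^ (2 * e + 2 * e * (Δ + 1)) *
          U ^ (Δ + 1)) ^ (Δ + 1)) := by
          refine mul_le_mul hKU hfac1 ?_ (by positivity)
          exact mul_nonneg (by linarith) (pow_nonneg hr0 _)
      _ = ((3 * (6 ^ (Δ + 1) * 2 ^ (2 * d ^ 2 * (Δ + 1)))) * (3 * (bigA Δ d : ℝ) ^ (Δ + 1))) *
          ((E * (E ^ 2) ^ (Δ + 1)) * (E * (N:ℝ) ^ ((2 * e + 2 * e * (Δ + 1)) * (Δ + 1)))) *
          (U ^ (Δ + 1) * (U ^ (Δ + 1)) ^ (Δ + 1)) := by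
          rw [mul_pow ((bigA Δ d : ℝ) * (N:ℝ) ^ (2 * e + 2 * e * (Δ + 1))) (U ^ (Δ + 1)) (Δ + 1),
            mul_pow (bigA Δ d : ℝ), ← pow_mul (N:ℝ)]
          ring
      _ ≤ ((3 * (6 ^ (Δ + 1) * 2 ^ (2 * d ^ 2 * (Δ + 1)))) * (3 * (bigA Δ d : ℝ) ^ (Δ + 1))) *
          ((E * (E ^ 2) ^ (Δ + 1)) * (E * (N:ℝ) ^ ((2 * e + 2 * e * (Δ + 1)) * (Δ + 1)))) *
          (2 ^ (d * ((Δ + 1) * (Δ + 2))) * N) := by gcongr
      _ = _ := by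
          have h1 : (E * (E ^ 2) ^ (Δ + 1)) * (E * (N:ℝ) ^ ((2 * e + 2 * e * (Δ + 1)) * (Δ + 1))) *
              N = (N:ℝ) ^ (e + 2 * e * (Δ + 1) + (e + (2 * e + 2 * e * (Δ + 1)) * (Δ + 1)) + 1) := by
            rw [pow_add (N:ℝ) _ 1, pow_one, hE, ← pow_mul, ← pow_mul, ← pow_add, ← pow_add,
              ← pow_add]
            congr 2
            ring
          rw [← h1]
          push_cast
          ring

end Pool.Agent.Y531.Snet
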