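import Pool.Agent.Y531.Snet.Easy
import Pool.Agent.Y531.Mul.Ext
import Pool.Agent.Y531.Mul.Coprime

/-!
# Quotients of polynomials which vanish along a matrix function
-/

set_option autoImplicit false
set_option linter.unusedSectionVars false
set_option maxHeartbeats 2000000
set_option synthInstance.maxHeartbeats 200000

namespace Pool.Agent.Y531.Snet

open Finset MvPolynomial Pool.Agent.W942 Pool.Agent.Y531 Pool.Agent.Y531.Mul
  Pool.Agent.Y531.Hit Pool.Agent.Y531.Hlim Pool.Agent.Y531.Sgen MeasureTheory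

/-- **Quotients.** -/
theorem LD_quot {ι R : Type*} [CommRing R] [DecidableEq ι] [Fintype ι] {i : ι}
    {P K F LF LK : SF ι R} (hP : P * K = F) (hF : SF.dd i F = LF * SF.sg i F)
    (hK : SF.dd i K = LK * SF.sg i K) (hu : IsUnit (K ∅)) :
    SF.dd i P = (LF - LK) * SF.sg i P := by
  have h1 : IsUnit (SF.sg i K) := by
    apply SF.isUnit_of_apply_empty
    rw [SF.sg_apply_of_notMem (Finset.notMem_empty i)]
    exact hu
  have h2 := hF
  rw [← hP, SF.dd_mul, SF.sg_mul, hK] at h2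
  apply h1.mul_right_cancel
  linear_combination h2

section gen
variable {σ : Type} {a b h : ℕ}

/-- **The logarithmic derivative at the generic point.** -/
theorem exists_gen' {F p : MvPolynomial σ ℝ} (hp : p ∣ F)
    {ϑ₀ : σ → SF (Fin b ⊕ Fin a) (FF a b h ℝ)} (h0 : ∀ j, ϑ₀ j ∅ = 0)
    (i₀ : Fin b ⊕ Fin a) : ∃ L : SF (Fin b ⊕ Fin a) (FF a b h (Localization.Away F)),
      ∀ {A : Type} [CommRing A] (φ : Localization.Away F →+* A),
      SF.dd i₀ (thS (φ.comp (cstR F)) (fun j => SF.mapR (SF.push φ) (leafG F ϑ₀ j)) p) =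
        SF.mapR (SF.push φ) L *
          SF.sg i₀ (thS (φ.comp (cstR F)) (fun j => SF.mapR (SF.push φ) (leafG F ϑ₀ j)) p) := by
  have h1 : IsUnit (thS (cstR F) (leafG F ϑ₀) p ∅) := by
    rw [thS_empty (cstR F) (leafG F ϑ₀) (leafG_empty h0) p, eval₂_gen]
    refine IsUnit.map _ ?_
    exact isUnit_of_dvd_unit (map_dvd _ hp) (IsLocalization.Away.algebraMap_isUnit F)
  obtain ⟨L, hL⟩ := exists_LD' i₀ _ h1
  refine ⟨L, ?_⟩
  intro A _ φ
  rw [← thS_map, ← SF.mapR_dd, ← SF.mapR_sg, hL, map_mul]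

/-- The logarithmic derivative at a point. -/
theorem gen_at' {F p : MvPolynomial σ ℝ} {ϑ₀ : σ → SF (Fin b ⊕ Fin a) (FF a b h ℝ)}
    {i₀ : Fin b ⊕ Fin a} {LG : SF (Fin b ⊕ Fin a) (FF a b h (Localization.Away F))}
    (hLG : ∀ {A : Type} [CommRing A] (φ : Localization.Away F →+* A),
      SF.dd i₀ (thS (φ.comp (cstR F)) (fun j => SF.mapR (SF.push φ) (leafG F ϑ₀ j)) p) =
        SF.mapR (SF.push φ) LG *
          SF.sg i₀ (thS (φ.comp (cstR F)) (fun j => SF.mapR (SF.push φ) (leafG F ϑ₀ j)) p))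
    {x : σ → ℝ} (hx : eval x F ≠ 0) :
    SF.dd i₀ (thS (RingHom.id ℝ) (leafAt ϑ₀ x) p) =
      SF.mapR (SF.push (evAt hx)) LG * SF.sg i₀ (thS (RingHom.id ℝ) (leafAt ϑ₀ x) p) := by
  have h2 : (evAt hx).comp (cstR F) = RingHom.id ℝ := by
    refine RingHom.ext fun r => ?_
    rw [RingHom.comp_apply, cstR_apply, evAt_apply, eval_C, RingHom.id_apply]
  have h4 : ∀ g : SF (Fin b ⊕ Fin a) (FF a b h ℝ), SF.mapR (SF.push (RingHom.id ℝ)) g = g := by
    intro g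
    refine SF.ext' fun S => ?_
    rw [SF.mapR_apply]
    funext u v
    rfl
  have h3 : (fun j => SF.mapR (SF.push (evAt hx)) (leafG F ϑ₀ j)) = leafAt ϑ₀ x := by
    funext j
    rw [leafG_map, h2, h4, leafAt, xR, evAt_apply, eval_X]
  have h1 := hLG (evAt hx)
  rw [h2, h3] at h1
  exact h1

end gen

variable {a b h n : ℕ}

section thet
variable {e : Fin (a + b) ≃ Fin b ⊕ Fin a} {ν : Vtx h e → Fin n} {l₀ : Fin b ⊕ Fin a}

theorem thet_split {A : Type*} [CommRing A] (z : Fin n × Fin n → A) (j : Fin n × Fin n) :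
    thet e ν l₀ z j = SF.cst (algebraMap A (FF a b h A) (z j)) +
      thet e ν l₀ (fun _ => (0 : A)) j := by
  rw [thet, thet, map_zero, map_zero, zero_add]

theorem thet_zero_empty {A : Type*} [CommRing A] (j : Fin n × Fin n) :
    thet (h := h) e ν l₀ (fun _ => (0 : A)) j ∅ = 0 := by
  rw [thet, map_zero, map_zero, zero_add, SF.sgl_apply, if_neg (Finset.singleton_ne_empty _).symm]

theorem leafAt_thet (x : Fin n × Fin n → ℝ) :
    leafAt (thet (h := h) e ν l₀ (fun _ => (0 : ℝ))) x = thet e ν l₀ x := by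
  funext j
  rw [leafAt, thet_split x j]

end thet

/-- **The rank inequality for matrix functions.** -/
theorem mult_core {κ₁ L : ℕ} {T : ℕ → ℕ} {Kc : ℝ} (ha : 0 < a) (hd : 2 ≤ a + b) (hKc : 1 ≤ Kc)
    (hTK : T (κ₁ + 1) ≤ a + b)
    (hscale : ∀ k, k < κ₁ + 1 → ∃ z : ℝ, 0 ≤ z ∧ z ≤ 1 ∧ NumScale a b h (T k) z ∧
      z ^ (T (k + 1)) ≤ ((2:ℝ) ^ (a * h * L))⁻¹)
    {e : Fin (a + b) ≃ Fin b ⊕ Fin a} {ν : Vtx h e → Fin n} (hν : Function.Injective ν)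
    (χ : Equiv.Perm (Fin n) → ℝ) (hχ1 : χ 1 ≠ 0) (hχ : ∀ u, χ (sig e ν hν u) ≠ 0)
    {f k : MvPolynomial (Fin n × Fin n) ℝ} (hf0 : f ≠ 0) (hk0 : k ≠ 0)
    (hgood : ∃ S : Set (Fin n × Fin n → ℝ), volume S ≠ 0 ∧ ∀ x ∈ S, eval x f ≠ 0 ∧
      eval x k ≠ 0 ∧ ∃ (Q : SF (Fin b ⊕ Fin a) (FF a b h ℝ)) (c₀ : ℝ),
        Good (bitFrame a b h) (T κ₁) (Kc * ((2:ℝ) ^ (a * h * L))⁻¹) Q ∧
        Q ∅ = algebraMap ℝ (FF a b h ℝ) c₀ ∧
        Q * thS (RingHom.id ℝ)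
            (leafAt (thet e ν (Sum.inr ⟨0, ha⟩) (fun _ => (0 : ℝ))) x) k =
          thS (RingHom.id ℝ)
            (leafAt (thet e ν (Sum.inr ⟨0, ha⟩) (fun _ => (0 : ℝ))) x) f)
    (hord : ordr χ (ν (star hd)) k ≠ ordr χ (ν (star hd)) f) :
    (2:ℝ) ^ (a * h * L) ≤ ((a:ℝ) + b) * 2 ^ ((a + b) ^ 2) * Kc := by
  classical
  have hcard : Fintype.card (Fin b ⊕ Fin a) = a + b := by
    rw [Fintype.card_sum, Fintype.card_fin, Fintype.card_fin, add_comm]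
  let i₀ : Fin b ⊕ Fin a := Sum.inr ⟨0, ha⟩
  set st := ν (star hd) with hst
  have hPP : PP χ st ≠ 0 := by
    intro h0
    apply hχ1
    have h1 := eval_PP (A := ℝ) χ st (RingHom.id ℝ)
    rw [h0, MvPolynomial.eval₂_zero] at h1
    exact h1.symm
  have hne : Nonempty (Fin n × Fin n) := ⟨(st, st)⟩
  have hchR : CharZero (RF n ℝ) :=
    charZero_of_injective_algebraMap (algebraMap ℝ (RF n ℝ)).injective
  obtain ⟨ψ, ψ', hψ', hψd, hψ0, hψψ'⟩ :=
    exists_psi (e := e) (ν := ν) (l₀ := i₀) χ st hPP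
  obtain ⟨Wf, hWf, hfacf⟩ := exists_factor (l₀ := i₀) hν hd χ hPP hψ' hψd hf0
  obtain ⟨Wh, hWh, hfach⟩ := exists_factor (l₀ := i₀) hν hd χ hPP hψ' hψd hk0
  set ϑ : ℝ := ((2:ℝ) ^ (a * h * L))⁻¹ with hϑ
  have hϑ0 : 0 < ϑ := by positivity
  set ϑ₀ : Fin n × Fin n → SF (Fin b ⊕ Fin a) (FF a b h ℝ) :=
    thet e ν i₀ (fun _ => (0 : ℝ)) with hϑ₀
  have h0 : ∀ j, ϑ₀ j ∅ = 0 := fun j => thet_zero_empty j
  set D := f * k with hD
  obtain ⟨LF, hLF⟩ := exists_gen' (F := D) (p := f) (dvd_mul_right f k) h0 i₀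
  obtain ⟨LK, hLK⟩ := exists_gen' (F := D) (p := k) (dvd_mul_left k f) h0 i₀
  set B : Finset (Fin b ⊕ Fin a) := Finset.univ.erase i₀ with hB
  have hBi : i₀ ∉ B := Finset.notMem_erase _ _
  have hBins : insert i₀ B = Finset.univ := Finset.insert_erase (Finset.mem_univ _)
  have hBc : B.card = a + b - 1 := by
    rw [hB, Finset.card_erase_of_mem (Finset.mem_univ _), Finset.card_univ, hcard]
  set ρ : ℝ := 2 ^ ((a + b) ^ 2) * (Kc * ϑ) * 2 ^ (b * (a * h)) with hρ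
  obtain ⟨S, hSvol, hS⟩ := hgood
  have hSD : ∀ x ∈ S, eval x D ≠ 0 := fun x hx => by
    rw [hD, map_mul]
    exact mul_ne_zero (hS x hx).1 (hS x hx).2.1
  have hemp : ∀ (x : Fin n × Fin n → ℝ) (p : MvPolynomial (Fin n × Fin n) ℝ),
      thS (RingHom.id ℝ) (leafAt ϑ₀ x) p ∅ = algebraMap ℝ (FF a b h ℝ) (eval x p) :=
    fun x p => thS_empty (RingHom.id ℝ) (leafAt ϑ₀ x) (z := x) (fun j => by
        rw [leafAt, SF.add_def, h0, add_zero, SF.cst_apply, if_pos rfl]) p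
  have hSrk : ∀ x (hx : x ∈ S), HasRk (fun u v => evAt (hSD x hx)
      ((LF B u v) - (LK B u v))) ⌊ρ⌋₊ := by
    intro x hx
    obtain ⟨hxf, hxk, Q, c₀, hQ1, hQ2, hQ3⟩ := hS x hx
    have h1 := gen_at' hLF (hSD x hx)
    have h2 := gen_at' hLK (hSD x hx)
    have hQ3' : Q * thS (RingHom.id ℝ) (leafAt ϑ₀ x) k = thS (RingHom.id ℝ) (leafAt ϑ₀ x) f := hQ3
    have h3 := LD_quot hQ3' h1 h2 (by
      rw [hemp]
      exact (isUnit_iff_ne_zero.2 hxk).map _)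
    have hc₀ : c₀ ≠ 0 := by
      rintro rfl
      have h4 := congrArg (SF.ev0 (ι := Fin b ⊕ Fin a) (R := FF a b h ℝ)) hQ3'
      rw [map_mul, SF.ev0_apply, SF.ev0_apply, SF.ev0_apply, hQ2, map_zero, zero_mul, hemp] at h4
      exact hxf (congrFun (congrFun h4 (fun _ => true)) (fun _ => true)).symm
    obtain ⟨z, hz0, hz1, hzs, hzT⟩ := hscale κ₁ (by omega)
    have h4 := ld_rank (F := ℝ) (T₁ := T κ₁) (T₂ := T (κ₁ + 1)) (ϑ := ϑ)
      hϑ0 hKc hz0 hz1 hzs hzT hTK hQ1 hc₀ hQ2 i₀ h3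
    obtain ⟨r, hr, hr'⟩ := h4
    refine HasRk.mono ?_ (Nat.le_floor hr')
    refine hr.congr fun u v => ?_
    rw [map_sub]
    rfl
  -- the generic point near the zero
  have hDz : ∀ p : MvPolynomial (Fin n × Fin n) ℝ, p ≠ 0 →
      p.eval₂ (kk n ℝ) (zz ℝ χ st) ≠ 0 := fun p hp => eval_zz_ne_zero χ st p hp
  set φ₁ : Localization.Away D →+* LaurentSeries (RF n ℝ) :=
    IsLocalization.Away.lift D (g := (MvPolynomial.eval₂Hom (kk n ℝ) (zz ℝ χ st)))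
      (isUnit_iff_ne_zero.2 (hDz D (mul_ne_zero hf0 hk0))) with hφ₁
  have hφ₁a : ∀ p : MvPolynomial (Fin n × Fin n) ℝ,
      φ₁ (algebraMap (MvPolynomial (Fin n × Fin n) ℝ) (Localization.Away D) p) =
      p.eval₂ (kk n ℝ) (zz ℝ χ st) := fun p => IsLocalization.Away.lift_eq D _ p
  have hrk := transfer (fun u v => (LF B u v) - (LK B u v)) ⌊ρ⌋₊ hSvol hSD hSrk φ₁
  have h2 : φ₁.comp (cstR D) = kk n ℝ := by
    refine RingHom.ext fun r => ?_
    rw [RingHom.comp_apply, cstR_apply, hφ₁a, eval₂_C]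
  have h3 : (fun j => SF.mapR (SF.push φ₁) (leafG D ϑ₀ j)) =
      thet e ν i₀ (zz ℝ χ st) := by
    funext j
    rw [leafG_map, h2, hϑ₀, thet_map, xR, hφ₁a, eval₂_X, thet_split (zz ℝ χ st) j]
    congr 2
    funext x
    exact map_zero _
  have hth : ∀ p : MvPolynomial (Fin n × Fin n) ℝ,
      thS (kk n ℝ) (thet e ν i₀ (zz ℝ χ st)) p = thR e ν i₀ (kk n ℝ) (zz ℝ χ st) p :=
    fun p => rfl
  have hF1 := hLF φ₁
  rw [h2, h3, hth] at hF1
  have hK1 := hLK φ₁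
  rw [h2, h3, hth] at hK1
  -- the factorisation of the quotient
  set ta : SF (Fin b ⊕ Fin a) (FF a b h (LaurentSeries (RF n ℝ))) :=
    SF.cst (fun _ _ => tau (RF n ℝ)) - SF.mapR (SF.push HahnSeries.C) ψ with hta
  have hρ0 : 0 ≤ ρ := by
    have : 0 ≤ Kc := zero_le_one.trans hKc
    positivity
  have key : ∀ (f' k' : MvPolynomial (Fin n × Fin n) ℝ)
      (Wf Wh : SF (Fin b ⊕ Fin a) (FF a b h (PowerSeries (RF n ℝ))))
      (L' : SF (Fin b ⊕ Fin a) (FF a b h (LaurentSeries (RF n ℝ)))) (rf rh : ℕ),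
      IsUnit Wf → IsUnit Wh → k' ≠ 0 → rh < rf →
      thR e ν i₀ (kk n ℝ) (zz ℝ χ st) f' = ta ^ rf *
        SF.mapR (SF.push (HahnSeries.ofPowerSeries ℤ (RF n ℝ))) Wf →
      thR e ν i₀ (kk n ℝ) (zz ℝ χ st) k' = ta ^ rh *
        SF.mapR (SF.push (HahnSeries.ofPowerSeries ℤ (RF n ℝ))) Wh →
      (∀ P' : SF (Fin b ⊕ Fin a) (FF a b h (LaurentSeries (RF n ℝ))),
        P' * thR e ν i₀ (kk n ℝ) (zz ℝ χ st) k' = thR e ν i₀ (kk n ℝ) (zz ℝ χ st) f' →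
        SF.dd i₀ P' = L' * SF.sg i₀ P') →
      HasRk (L' B) ⌊ρ⌋₊ → (2:ℝ) ^ (b * (a * h)) ≤ ((a:ℝ) + b) * ρ := by
    intro f' k' Wf Wh L' rf rh hWf hWh hk'0 hlt hfacf hfach hL' hrk'
    obtain ⟨w', hw'⟩ := hWh.exists_right_inv
    set Pτ : SF (Fin b ⊕ Fin a) (FF a b h (LaurentSeries (RF n ℝ))) := ta ^ (rf - rh) *
      SF.mapR (SF.push (HahnSeries.ofPowerSeries ℤ (RF n ℝ))) (Wf * w') with hPτ
    have hfac : Pτ * thR e ν i₀ (kk n ℝ) (zz ℝ χ st) k' =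
        thR e ν i₀ (kk n ℝ) (zz ℝ χ st) f' := by
      have h1 : SF.mapR (SF.push (HahnSeries.ofPowerSeries ℤ (RF n ℝ))) Wh *
          SF.mapR (SF.push (HahnSeries.ofPowerSeries ℤ (RF n ℝ))) w' = 1 := by
        rw [← map_mul, hw', map_one]
      have h3 : ta ^ rf = ta ^ (rf - rh) * ta ^ rh := by
        rw [← pow_add]; congr 1; omega
      rw [hfacf, hfach, hPτ, map_mul, h3]
      calc ta ^ (rf - rh) * (SF.mapR (SF.push (HahnSeries.ofPowerSeries ℤ (RF n ℝ))) Wf *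
            SF.mapR (SF.push (HahnSeries.ofPowerSeries ℤ (RF n ℝ))) w') *
            (ta ^ rh * SF.mapR (SF.push (HahnSeries.ofPowerSeries ℤ (RF n ℝ))) Wh)
          = ta ^ (rf - rh) * ta ^ rh *
            SF.mapR (SF.push (HahnSeries.ofPowerSeries ℤ (RF n ℝ))) Wf *
            (SF.mapR (SF.push (HahnSeries.ofPowerSeries ℤ (RF n ℝ))) Wh *
              SF.mapR (SF.push (HahnSeries.ofPowerSeries ℤ (RF n ℝ))) w') := by ring
        _ = _ := by rw [h1, mul_one]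
    have hWu : ∀ u v, IsUnit ((Wf * w') ∅ u v) := by
      intro u v
      have hw'u : IsUnit w' := IsUnit.of_mul_eq_one _ (by rw [mul_comm]; exact hw')
      have h1 := (hWf.mul hw'u).map
        (SF.ev0 (ι := Fin b ⊕ Fin a) (R := FF a b h (PowerSeries (RF n ℝ))))
      have h2 := h1.map (Pi.evalRingHom (fun _ : Ed a b h → Bool =>
        (Ed a b h → Bool) → PowerSeries (RF n ℝ)) u)
      exact h2.map (Pi.evalRingHom (fun _ : Ed a b h → Bool => PowerSeries (RF n ℝ)) v)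
    have hr : rf - rh ≠ 0 := by omega
    have hroot := root_rk ψ hψ0 i₀ (Wf * w') hWu (rf - rh) hr Pτ _ (hL' Pτ hfac) rfl B hBi
      (ρ := ρ) ⟨⌊ρ⌋₊, hrk', Nat.floor_le hρ0⟩
    rw [hBins] at hroot
    obtain ⟨ρ', hρ', hρ''⟩ := hroot
    have hne' : (Finset.univ : Finset (Fin b ⊕ Fin a)) ≠ ∅ :=
      Finset.ne_empty_of_mem (Finset.mem_univ i₀)
    rw [hψψ' _ hne'] at hρ'
    have hle := Mul.full_rank hν hd χ hχ1 hχ ψ' hψ' hρ'
    have hcE : Fintype.card (Ed a b h) = b * (a * h) := by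
      rw [Fintype.card_prod, Fintype.card_prod, Fintype.card_fin, Fintype.card_fin,
        Fintype.card_fin]
    rw [hcE] at hle
    have h1 : ((2 ^ (b * (a * h)) : ℕ) : ℝ) ≤ ρ' := by exact_mod_cast hle
    rw [Nat.cast_pow, Nat.cast_ofNat] at h1
    refine (h1.trans hρ'').trans (le_of_eq ?_)
    congr 1
    have h2 : B.card + 1 = a + b := by rw [hBc]; omega
    have h3 : ((B.card + 1 : ℕ) : ℝ) = ((a + b : ℕ) : ℝ) := by rw [h2]
    push_cast at h3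
    exact h3
  have hunit : ∀ p : MvPolynomial (Fin n × Fin n) ℝ, p ≠ 0 →
      IsUnit (thR e ν i₀ (kk n ℝ) (zz ℝ χ st) p ∅) := by
    intro p hp
    rw [thR_empty]
    exact (isUnit_iff_ne_zero.2 (hDz p hp)).map _
  have hleR : (2:ℝ) ^ (b * (a * h)) ≤ ((a:ℝ) + b) * ρ := by
    rcases lt_or_gt_of_ne hord with hlt | hgt
    · refine key f k Wf Wh _ _ _ hWf hWh hk0 hlt hfacf hfach
        (fun P' hP' => LD_quot hP' hF1 hK1 (hunit k hk0)) ?_
      exact hrk.congr fun u v => by rw [map_sub]; rfl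
    · refine key k f Wh Wf _ _ _ hWh hWf hf0 hgt hfach hfacf
        (fun P' hP' => LD_quot hP' hK1 hF1 (hunit f hf0)) ?_
      have h5 : HasRk (fun u v => (-1 : LaurentSeries (RF n ℝ)) *
          φ₁ (LF B u v - LK B u v)) ⌊ρ⌋₊ := by
        obtain ⟨F₁, F₂, hFF⟩ := hrk
        refine ⟨fun i u => -1 * F₁ i u, F₂, fun u v => ?_⟩
        have h6 : φ₁ (LF B u v - LK B u v) = ∑ i, F₁ i u * F₂ i v := hFF u v
        show -1 * φ₁ (LF B u v - LK B u v) = ∑ i, (-1 * F₁ i u) * F₂ i v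
        rw [h6, Finset.mul_sum]
        exact Finset.sum_congr rfl fun i _ => by ring
      refine h5.congr fun u v => ?_
      rw [map_sub]
      show φ₁ (LK B u v) - φ₁ (LF B u v) = -1 * (φ₁ (LF B u v) - φ₁ (LK B u v))
      ring
  rw [hρ] at hleR
  set X : ℝ := Kc * ϑ with hX
  have hpos2 : (0:ℝ) < 2 ^ (b * (a * h)) := by positivity
  have h5 : (1:ℝ) ≤ ((a:ℝ) + b) * (2 ^ ((a + b) ^ 2) * X) := by
    by_contra hcon
    rw [not_le] at hcon
    have h6 : ((a:ℝ) + b) * (2 ^ ((a + b) ^ 2) * X * 2 ^ (b * (a * h))) =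
        (((a:ℝ) + b) * (2 ^ ((a + b) ^ 2) * X)) * 2 ^ (b * (a * h)) := by ring
    rw [h6] at hleR
    nlinarith
  have h7 : (0:ℝ) < 2 ^ (a * h * L) := by positivity
  have h8 : ((a:ℝ) + b) * (2 ^ ((a + b) ^ 2) * X) = (((a:ℝ) + b) * 2 ^ ((a + b) ^ 2) *
      Kc) / 2 ^ (a * h * L) := by
    rw [hX, hϑ]
    field_simp
  rw [h8, le_div_iff₀ h7, one_mul] at h5
  exact h5

end Pool.Agent.Y531.Snet
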