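import Pool.Agent.Y531.Snet.Rank
import Pool.Agent.Y531.Snet.Num

/-!
# The generator hits real polynomials which agree with a network on a large set
-/

set_option autoImplicit false
set_option linter.unusedSectionVars false
set_option maxHeartbeats 2000000
set_option synthInstance.maxHeartbeats 200000

namespace Pool.Agent.Y531.Snet

open MvPolynomial Pool.Agent.W942 Pool.Agent.Y531 Pool.Agent.Y531.Mul Pool.Agent.Y531.Hit
open Pool.Agent.Y531.Smooth hiding Op GOp Op.Gives Op.Reads rounds rounds_eq Op.exists_gops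
  rounds_good contDiff_rounds GOp.contDiff
open Pool.Agent.Y531.Hlim Pool.Agent.Y531.Sgen MeasureTheory

section cont
variable {σ : Type} [Fintype σ] {s m d : ℕ} {cls : Set (MvPolynomial (Fin s) ℝ)}

theorem GOp.contDiff (g : GOp σ s m d cls) {F : (σ → ℝ) → Fin s → ℝ}
    (hF : ∀ i, ContDiff ℝ d fun x => F x i) : ContDiff ℝ d fun x => g.val x (F x) := by
  cases g with
  | fn φ smooth arg =>
    exact smooth.comp (contDiff_pi.2 fun j => (arg j).contDiff hF)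
  | poly p mem arg =>
    exact (contDiff_eval p).comp (contDiff_pi.2 fun j => (arg j).contDiff hF)

theorem contDiff_rounds (g : Fin s → GOp σ s m d cls) : ∀ t i,
    ContDiff ℝ d fun x => rounds g t x i := by
  intro t
  induction t with
  | zero => intro i; exact contDiff_const
  | succ t ih => intro i; exact (g i).contDiff ih

/-- The set where the network may give out the quotient of `f` and `k`. -/
def Network.Agree {Δ : ℕ} (P : Network σ s Δ m d cls) (f k : MvPolynomial σ ℝ) :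
    Set (σ → ℝ) :=
  {x | ∃ y, P.Outputs x y ∧ y * eval x k = eval x f}

/-- The set has positive (outer) measure, or it is not meagre. -/
def Large (S : Set (σ → ℝ)) : Prop := volume S ≠ 0 ∨ ¬ IsMeagre S

/-- One of the functions agrees with the quotient on a set of positive measure. -/
theorem exists_rounds_pos {Δ : ℕ} (P : Network σ s Δ m d cls) (f k : MvPolynomial σ ℝ)
    (h : Large (P.Agree f k)) :
    ∃ (g : Fin s → GOp σ s m d cls) (c : Comb σ s),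
      volume {x : σ → ℝ | c.val x (rounds g (Δ + 1) x) * eval x k = eval x f} ≠ 0 := by
  classical
  by_contra hcon
  push Not at hcon
  obtain ⟨S, hS, hS'⟩ := P.exists_rounds
  set F : ((Fin s → GOp σ s m d cls) × Comb σ s) → (σ → ℝ) → ℝ :=
    fun p x => p.2.val x (rounds p.1 (Δ + 1) x) * eval x k - eval x f with hF
  have hfc : ∀ p, ContDiff ℝ d (F p) := fun p =>
    ((p.2.contDiff (contDiff_rounds p.1 (Δ + 1))).mul (contDiff_eval k)).sub (contDiff_eval f)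
  have h1 : ∀ p, ∀ᵐ x, F p x ≠ 0 := by
    intro p
    have h2 := measure_eq_zero_iff_ae_notMem.1 (hcon p.1 p.2)
    filter_upwards [h2] with x hx h0
    exact hx (sub_eq_zero.1 h0)
  have hsub : P.Agree f k ⊆ ⋃ p ∈ S, {x | F p x = 0} := by
    rintro x ⟨y, hy, hyf⟩
    obtain ⟨p, hp, hp'⟩ := hS' x _ hy
    refine Set.mem_iUnion₂.2 ⟨p, hp, ?_⟩
    show p.2.val x (rounds p.1 (Δ + 1) x) * eval x k - eval x f = 0
    rw [← hp', hyf, sub_self]
  rcases h with h | h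
  · apply h
    refine measure_mono_null hsub ?_
    rw [measure_biUnion_null_iff hS]
    intro p _
    exact measure_eq_zero_iff_ae_notMem.2 (h1 p)
  · apply h
    exact (isMeagre_biUnion hS fun p _ => isMeagre_of_null (hfc p).continuous (h1 p)).mono hsub

/-- **The points of the set.** -/
theorem exists_set {Δ : ℕ} [Nonempty σ] (g : Fin s → GOp σ s m d cls) (c : Comb σ s)
    {f k : MvPolynomial σ ℝ}
    (hvol : volume {x : σ → ℝ | c.val x (rounds g (Δ + 1) x) * eval x k = eval x f} ≠ 0)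
    (hf : f ≠ 0) (hk : k ≠ 0) : ∃ S : Set (σ → ℝ), volume S ≠ 0 ∧ ∀ x ∈ S, eval x f ≠ 0 ∧
      eval x k ≠ 0 ∧ PE d (fun z => c.val z (rounds g (Δ + 1) z) * eval z k - eval z f) x 0 := by
  refine ⟨{x | (c.val x (rounds g (Δ + 1) x) * eval x k = eval x f) ∧ eval x f ≠ 0 ∧
    eval x k ≠ 0 ∧ PE d (fun z => c.val z (rounds g (Δ + 1) z) * eval z k - eval z f) x 0},
    fun hS0 => hvol ?_, fun x hx => hx.2⟩
  have hcd : ContDiff ℝ d
      (fun z => c.val z (rounds g (Δ + 1) z) * eval z k - eval z f) :=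
    ((c.contDiff (contDiff_rounds g (Δ + 1))).mul (contDiff_eval k)).sub (contDiff_eval f)
  have h1 : ∀ᵐ x : σ → ℝ, x ∉ {x | c.val x (rounds g (Δ + 1) x) * eval x k = eval x f} := by
    filter_upwards [ae_flat d _ hcd, ae_eval_ne_zero hf, ae_eval_ne_zero hk,
      measure_eq_zero_iff_ae_notMem.1 hS0] with x h2 h3 h3' h4 h5
    exact h4 ⟨h5, h3, h3', h2 (by rw [h5, sub_self])⟩
  exact measure_eq_zero_iff_ae_notMem.2 h1

end cont

/-- **The generator does not vanish.** -/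
theorem net_hits (c₀ Δ k : ℕ) (hk : k ≠ 0) : ∃ a b q₀ N₀ : ℕ, 0 < a ∧ 0 < b ∧
    ∀ N, N₀ ≤ N → ∀ q : ℕ, q.Prime → Fintype.card (Cell a b (blockLen a b k N)) ≤ q →
    q ≤ 2 * Fintype.card (Cell a b (blockLen a b k N)) →
    (Fintype.card (Cell a b (blockLen a b k N)) * q) ^ k ≤ N ∧
    ∀ pos : Cell a b (blockLen a b k N) → ZMod q, Function.Injective pos →
    ∀ (n s m : ℕ), n ≤ N → s ≤ N ^ c₀ → m ^ q₀ ≤ N →
    ∀ (P : Network (Fin n) s Δ m (a + b) {p | PolyLimit N c₀ Δ q₀ p})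
      (f : MvPolynomial (Fin n) ℝ), f ≠ 0 → Large (P.Agree f 1) →
      aeval (fun j : Fin n => G ℝ (2 * k + 1) pos j) f ≠ 0 := by
  set e₀ := c₀ + 1 with he₀
  set w := e₀ + (2 * e₀ + 2 * e₀ * (Δ + 1)) * (Δ + 1) + 2 with hw
  set κ₁ := (2 * Δ + 2) * (Δ + 1) + 1 with hκ₁
  obtain ⟨a, b, T, ha, hb, hba, hT0, hTm, hTK, hsc⟩ := exists_thresholds (κ₁ + 1) (2 * k * w) 2
  set d := a + b with hd
  have hd0 : 0 < d := by omega
  set t := 2 * k + 1 with ht
  set C₀ : ℕ := 3 * ((bigA Δ d) ^ (Δ + 1) * 2 ^ (d * (Δ + 1) ^ 2)) with hC₀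
  set C₁ : ℕ := d * 2 ^ (d ^ 2) * (C₀ * ((t + 1) ^ d * 2 ^ (d ^ 2))) with hC₁
  set C₂ : ℕ := (2 * d ^ 2) ^ k * 4 ^ (a * k) with hC₂
  refine ⟨a, b, d * (Δ + 1) ^ 2, C₂ ^ w * C₁ + C₂ ^ (2 * k + 1) + C₂ + 1, ha, hb, ?_⟩
  intro N hn q hq hq1 hq2
  obtain ⟨hna, hnb, hnc, hn1⟩ : C₂ ^ w * C₁ < N ∧ C₂ ^ (2 * k + 1) < N ∧ C₂ < N ∧ 1 ≤ N := by
    have h1 : ∀ x y z : ℕ, x + y + z + 1 ≤ N → x < N ∧ y < N ∧ z < N ∧ 1 ≤ N := by
      intro x y z hxyz
      omega
    exact h1 _ _ _ hn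
  set h := blockLen a b k N with hh
  rw [blockLen, ← hd] at hh
  set M := Fintype.card (Cell a b h) with hM
  have hMc : M = b * 2 ^ (a * h) + a * 2 ^ (b * h) := card_cell a b h
  have hd2 : 0 < (2 * d ^ 2) ^ k := by positivity
  have h4a : 1 < 4 ^ (a * k) := Nat.one_lt_pow (by positivity) (by norm_num)
  have hC₂' : (2 * d ^ 2) ^ k ≤ C₂ := Nat.le_mul_of_pos_right _ (by positivity)
  have hnd : N / (2 * d ^ 2) ^ k ≠ 0 := by
    have : 0 < N / (2 * d ^ 2) ^ k := Nat.div_pos (by omega) hd2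
    omega
  have hlow : (4 ^ (a * k)) ^ h ≤ N / (2 * d ^ 2) ^ k := by
    rw [hh]
    exact Nat.pow_log_le_self _ hnd
  have hup : N / (2 * d ^ 2) ^ k < (4 ^ (a * k)) ^ (h + 1) := by
    rw [hh]
    exact Nat.lt_pow_succ_log_self h4a _
  have hM1 : M ≤ d * 2 ^ (a * h) := by
    have h1 : 2 ^ (b * h) ≤ 2 ^ (a * h) :=
      Nat.pow_le_pow_right (by norm_num) (Nat.mul_le_mul_right h hba)
    have h3 : a * 2 ^ (b * h) ≤ a * 2 ^ (a * h) := Nat.mul_le_mul_left a h1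
    have h4 : d * 2 ^ (a * h) = b * 2 ^ (a * h) + a * 2 ^ (a * h) := by rw [hd]; ring
    omega
  have hM2 : 2 ^ (a * h) ≤ M := by
    rw [hMc]
    exact (Nat.le_mul_of_pos_left _ hb).trans (Nat.le_add_right _ _)
  have hseed : (M * q) ^ k ≤ N := by
    have h1 : M * q ≤ 2 * d ^ 2 * 4 ^ (a * h) := by
      calc M * q ≤ M * (2 * M) := Nat.mul_le_mul_left _ hq2
        _ ≤ (d * 2 ^ (a * h)) * (2 * (d * 2 ^ (a * h))) := by gcongr
        _ = 2 * d ^ 2 * 4 ^ (a * h) := by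
            have : (4:ℕ) = 2 * 2 := rfl
            rw [this, mul_pow]; ring
    calc (M * q) ^ k ≤ (2 * d ^ 2 * 4 ^ (a * h)) ^ k := Nat.pow_le_pow_left h1 k
      _ = (2 * d ^ 2) ^ k * (4 ^ (a * k)) ^ h := by
          rw [mul_pow, ← pow_mul, ← pow_mul]
          congr 2
          ring
      _ ≤ (2 * d ^ 2) ^ k * (N / (2 * d ^ 2) ^ k) := Nat.mul_le_mul_left _ hlow
      _ ≤ N := Nat.mul_div_le N _
  refine ⟨hseed, ?_⟩
  intro pos hpos n s m hnN hs hm P f hf0 hP hzero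
  rcases Nat.eq_zero_or_pos n with hn00 | hnpos
  · subst hn00
    rw [MvPolynomial.eq_C_of_isEmpty f] at hzero
    rw [MvPolynomial.aeval_C] at hzero
    have h1 : f.coeff 0 = 0 := by
      have h2 : (C (f.coeff 0) : MvPolynomial (Cell a b h × ZMod q) ℝ) = 0 := hzero
      exact (C_eq_zero).1 h2
    apply hf0
    rw [MvPolynomial.eq_C_of_isEmpty f, h1, C_0]
  have : Nonempty (Fin n) := ⟨⟨0, hnpos⟩⟩
  obtain ⟨g, c, hvol⟩ := exists_rounds_pos P f 1 hP
  obtain ⟨S, hSvol, hS⟩ := exists_set g c hvol hf0 one_ne_zero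
  have hNR : (1:ℝ) ≤ N := by exact_mod_cast hn1
  obtain ⟨Kl, hKl0, hKl1, hKl2⟩ := exists_loss a b h c₀ Δ e₀ N (by omega) (by omega) hn1
  have hKc := hKl2 n s m (by
    calc n ≤ N := hnN
      _ ≤ N ^ e₀ := Nat.le_self_pow (by omega) N) hs hm
  have hr1 : 1 ≤ rcost n s m d Kl := one_le_rcost _ _ _ _ hKl0
  have hn0 : (0:ℝ) ≤ n := Nat.cast_nonneg n
  have hs0 : (0:ℝ) ≤ s := Nat.cast_nonneg s
  have hmain := hit_core (L := 2 * k * w) (T := T) (κ₁ := κ₁)
    (Kc := ((n:ℝ) + s + 1) * rcost n s m d Kl ^ (Δ + 1)) hq ha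
    (one_le_mul_of_one_le_of_one_le (by linarith) (one_le_pow₀ hr1)) hT0 hTm hTK
    (fun k hk => hsc h k hk) pos hpos (t := t) (by
      have h1 : C₂ ≤ 2 ^ (a * h) := by
        by_contra hcon
        rw [not_le] at hcon
        have hnC : N < C₂ * (2 ^ (a * h)) ^ (2 * k) := by
          rw [Nat.div_lt_iff_lt_mul hd2] at hup
          refine hup.trans_le (le_of_eq ?_)
          have h1 : (4 ^ (a * k)) ^ h = (2 ^ (a * h)) ^ (2 * k) := by
            have : (4:ℕ) = 2 ^ 2 := rfl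
            rw [this, ← pow_mul, ← pow_mul, ← pow_mul]
            congr 1
            ring
          rw [pow_succ, h1, hC₂]
          ring
        have h2 : N < C₂ ^ (2 * k + 1) := by
          rw [pow_succ']
          exact hnC.trans_le (Nat.mul_le_mul_left _ (Nat.pow_le_pow_left hcon.le _))
        omega
      have hnC : N < C₂ * (2 ^ (a * h)) ^ (2 * k) := by
        rw [Nat.div_lt_iff_lt_mul hd2] at hup
        refine hup.trans_le (le_of_eq ?_)
        have h1 : (4 ^ (a * k)) ^ h = (2 ^ (a * h)) ^ (2 * k) := by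
          have : (4:ℕ) = 2 ^ 2 := rfl
          rw [this, ← pow_mul, ← pow_mul, ← pow_mul]
          congr 1
          ring
        rw [pow_succ, h1, hC₂]
        ring
      calc n ≤ N := hnN
        _ ≤ C₂ * (2 ^ (a * h)) ^ (2 * k) := hnC.le
        _ ≤ 2 ^ (a * h) * (2 ^ (a * h)) ^ (2 * k) := Nat.mul_le_mul_right _ h1
        _ = (2 ^ (a * h)) ^ t := by rw [ht, pow_succ']
        _ ≤ q ^ t := Nat.pow_le_pow_left (hM2.trans hq1) t) hf0 (by
      intro ϑ₀ h0 ϑ' hϑ' hvar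
      refine ⟨S, hSvol, fun x hx => ⟨(hS x hx).1, ?_⟩⟩
      have hpos' : (0:ℝ) < ϑ' := lt_of_lt_of_le (by positivity) hϑ'
      obtain ⟨Q, c₁, hQ1, hQ2, hQ3⟩ := out_good (T := fun k => T (k + 1)) (κ := 2 * Δ + 2)
        (K := Kl) (by omega) hKl0 (fun p hp => hKl1 s hs p hp) h0 (by
          have := hTm (Nat.zero_le 1)
          show 2 ≤ T (0 + 1)
          rw [zero_add]
          omega) (fun k l hkl => hTm (Nat.succ_le_succ hkl)) hpos' hvar (fun k hk => by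
          obtain ⟨z, hz0, hz1, hzs, hzT⟩ := hsc h (k + 1) (by rw [hκ₁]; omega)
          exact ⟨z, hz0, hz1, hzs, hzT.trans hϑ'⟩) g c f 1 (hS x hx).2.2
      rw [map_one, mul_one] at hQ3
      rw [← hQ3]
      rw [Fintype.card_fin, ← mul_assoc] at hQ1
      exact hQ1) hzero
  rw [← hd] at hmain
  have hnC : N < C₂ * (2 ^ (a * h)) ^ (2 * k) := by
    rw [Nat.div_lt_iff_lt_mul hd2] at hup
    refine hup.trans_le (le_of_eq ?_)
    have h1 : (4 ^ (a * k)) ^ h = (2 ^ (a * h)) ^ (2 * k) := by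
      have : (4:ℕ) = 2 ^ 2 := rfl
      rw [this, ← pow_mul, ← pow_mul, ← pow_mul]
      congr 1
      ring
    rw [pow_succ, h1, hC₂]
    ring
  -- the cost
  have hRHS : (2:ℝ) ^ (a * h * (2 * k * w)) ≤ C₁ * (N:ℝ) ^ (w - 1) := by
    refine hmain.trans ?_
    have h5 : (a:ℝ) + b = d := by rw [hd]; push_cast; ring
    rw [h5]
    have h3 : w - 1 = e₀ + (2 * e₀ + 2 * e₀ * (Δ + 1)) * (Δ + 1) + 1 := by omega
    rw [h3]
    have h8 : (C₁ : ℝ) = (d:ℝ) * 2 ^ (d ^ 2) * ((C₀ : ℕ) * (((t:ℝ) + 1) ^ d * 2 ^ (d ^ 2))) := by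
      rw [hC₁]; push_cast; ring
    rw [h8]
    calc (d:ℝ) * 2 ^ d ^ 2 * (((n:ℝ) + s + 1) * rcost n s m d Kl ^ (Δ + 1) *
          (((t:ℝ) + 1) ^ d * 2 ^ d ^ 2))
        ≤ (d:ℝ) * 2 ^ d ^ 2 * (((C₀ : ℕ) *
            (N:ℝ) ^ (e₀ + (2 * e₀ + 2 * e₀ * (Δ + 1)) * (Δ + 1) + 1)) *
          (((t:ℝ) + 1) ^ d * 2 ^ d ^ 2)) := by
          gcongr
      _ = _ := by ring
  have hnR2 : (N:ℝ) < C₂ * ((2:ℝ) ^ (a * h)) ^ (2 * k) := by exact_mod_cast hnC
  have hw0 : w ≠ 0 := by omega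
  have hfin : (N:ℝ) ^ w < (C₂:ℝ) ^ w * C₁ * (N:ℝ) ^ (w - 1) := by
    calc (N:ℝ) ^ w < (C₂ * ((2:ℝ) ^ (a * h)) ^ (2 * k)) ^ w :=
          pow_lt_pow_left₀ hnR2 (Nat.cast_nonneg N) hw0
      _ = (C₂:ℝ) ^ w * 2 ^ (a * h * (2 * k * w)) := by
          rw [mul_pow, ← pow_mul, ← pow_mul]
      _ ≤ (C₂:ℝ) ^ w * (C₁ * (N:ℝ) ^ (w - 1)) :=
          mul_le_mul_of_nonneg_left hRHS (by positivity)
      _ = _ := by ring
  have hfin2 : (N:ℝ) < (C₂:ℝ) ^ w * C₁ := by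
    have h1 : (N:ℝ) ^ w = N * (N:ℝ) ^ (w - 1) := by
      rw [← pow_succ']; congr 1
    rw [h1] at hfin
    exact lt_of_mul_lt_mul_right hfin (by positivity)
  have hfin3 : N < C₂ ^ w * C₁ := by exact_mod_cast hfin2
  exact absurd hfin3 (not_lt.2 hna.le)

end Pool.Agent.Y531.Snet
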