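import Pool.Agent.Y531.Snet.Main
import Pool.Agent.Y531.Hlim.Pts

/-!
# Rich classes of polynomials
-/

set_option autoImplicit false
set_option linter.unusedSectionVars false
set_option maxHeartbeats 2000000
set_option synthInstance.maxHeartbeats 200000

namespace Pool.Agent.Y531.Snet

open Finset MvPolynomial Matrix Pool.Agent.W942 Pool.Agent.Y531 Pool.Agent.Y531.Mul
  Pool.Agent.Y531.Hit Pool.Agent.Y531.Hlim

universe u

section poly
variable {σ : Type} {F : Type u} [Field F]

theorem pow_le_of {m q q' n : ℕ} (h : m ^ q ≤ n) (hq : q' ≤ q) (hn : 1 ≤ n) : m ^ q' ≤ n := by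
  rcases Nat.eq_zero_or_pos m with h0 | h0
  · rw [h0]
    rcases Nat.eq_zero_or_pos q' with h' | h'
    · rw [h', pow_zero]; exact hn
    · rw [zero_pow (by omega)]; exact Nat.zero_le _
  · exact (Nat.pow_le_pow_right h0 hq).trans h

theorem polyLimit_mono {n c c' Δ Δ' q q' : ℕ} {f : MvPolynomial σ F} (hn : 1 ≤ n) (hc : c ≤ c')
    (hΔ : Δ ≤ Δ') (hq : q' ≤ q) (hf : PolyLimit n c Δ q f) : PolyLimit n c' Δ' q' f := by
  obtain ⟨h, hh, s, m, C, R, P, Q, hs, hm, hC, hR, hP, hQ⟩ := hf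
  exact ⟨h, hh, s, m, ⟨C.g, C.depth, fun i => (C.depth_le i).trans hΔ, C.isGate⟩, R, P, Q,
    hs.trans (Nat.pow_le_pow_right hn hc), pow_le_of hm hq hn, hC, hR, hP, hQ⟩

/-- **Determinants are limits of functions computed by circuits.** -/
theorem polyLimit_of_matrix {N c Δ q : ℕ} (hN : 16 ^ q ≤ N) (hN2 : 2 ≤ N)
    {f : MvPolynomial σ F} (hf : MatrixLimit N c Δ (4 * q) f) :
    PolyLimit N (3 * c + 3) (Δ + Δ + 2) q f := by
  classical
  obtain ⟨N', b', w, A, hN', hb', ⟨s₀, m₀, C₀, hs₀, hm₀, hA⟩, ⟨hw, hwb, hst⟩, ⟨f₃, hf₃, rfl⟩⟩ := hf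
  obtain ⟨K, f₃', hP, hdet, hlim⟩ := exists_pert A f₃ hf₃.symm
  set inc := algebraMap (MvPolynomial σ (LaurentSeries F))
    (AF σ (LaurentSeries F)) with hinc
  have hinj : Function.Injective inc := inc_injective
  set M : Matrix (Fin N') (Fin N') (AF σ (LaurentSeries F)) :=
    inc.mapMatrix (pert A K) with hM
  have hMapp : ∀ i j, M i j = inc (pert A K i j) := fun i j => rfl
  have hMdet : M.det = inc (pert A K).det := (RingHom.map_det inc _).symm
  have hpa : ∀ i j, pert A K i j = (if i = j then C (EE F K) else 0) + A i j := by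
    intro i j
    rw [pert, Matrix.add_apply, Matrix.scalar_apply, Matrix.diagonal_apply]
  obtain ⟨vs, r, hr, Hord, hlen⟩ := exists_ord w hw
  rw [Fintype.card_fin] at hr
  obtain ⟨C₁, hC₁⟩ := exists_wider (le_max_left m₀ (b' * (b' + 2))) C₀
  obtain ⟨C', hC'⟩ := exists_circuit_det' (s := s₀ + (N' * (N' ^ 2 + 1) + 1)) (Δ := Δ)
    (m := max m₀ (b' * (b' + 2))) (b := b') (M := M) C₁ Hord (by
      intro i j hij
      by_cases h : i = j
      · rw [h]; exact Or.inl (List.prefix_refl _)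
      · refine hst i j fun h0 => hij ?_
        rw [hMapp, hpa, if_neg h, h0, add_zero, map_zero]) (by
      intro i j
      rw [hMapp, hpa, map_add]
      show _ ∈ Lin (Set.range C₁.g)
      rw [hC₁]
      refine Submodule.add_mem _ ?_ (hA i j)
      split_ifs
      · have h1 : inc (C (EE F K)) = (EE F K) • (1 : AF σ (LaurentSeries F)) := by
          rw [Algebra.smul_def, mul_one,
            IsScalarTower.algebraMap_apply (LaurentSeries F) (MvPolynomial σ (LaurentSeries F))
              (AF σ (LaurentSeries F))]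
          rfl
        rw [h1]
        exact Submodule.smul_mem _ _ one_mem_Lin
      · rw [map_zero]; exact Submodule.zero_mem _) (by
      intro v
      have h1 : res v M = inc.mapMatrix (res v (pert A K)) := by
        ext i j
        rw [res_apply]
        show _ = inc (res v (pert A K) i j)
        rw [res_apply]
        split_ifs with h2
        · rfl
        · rw [Matrix.one_apply, Matrix.one_apply]
          split_ifs
          · rw [map_one]
          · rw [map_zero]
      rw [h1, ← RingHom.map_det]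
      intro h0
      exact hP v (hinj (by rw [h0, map_zero]))) hlen (fun v => hwb v) (le_max_right _ _) (by
      rw [Fintype.card_fin]
      exact Nat.add_le_add_left (Nat.add_le_add_right (Nat.mul_le_mul_right _ hr) 1) _)
  rw [hMdet] at hC'
  refine ⟨1, one_ne_zero, s₀ + (N' * (N' ^ 2 + 1) + 1), max m₀ (b' * (b' + 2)), C', _,
    (pert A K).det, 1, ?_, ?_, hC', ?_, ⟨f₃', hdet.symm, by rw [mul_one]; exact hlim⟩,
    ⟨1, map_one _, map_one _⟩⟩
  · have h1 : 1 ≤ N ^ c := Nat.one_le_pow _ _ (by omega)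
    have h3 : N' ^ 3 ≤ N ^ (3 * c) := by
      rw [mul_comm, pow_mul]
      exact Nat.pow_le_pow_left hN' 3
    have h4 : N' ≤ N ^ (3 * c) := hN'.trans (Nat.pow_le_pow_right (by omega) (by omega))
    have h7 : s₀ ≤ N ^ (3 * c) := hs₀.trans (Nat.pow_le_pow_right (by omega) (by omega))
    have h5 : 1 ≤ N ^ (3 * c) := Nat.one_le_pow _ _ (by omega)
    have h6 : 4 ≤ N ^ 3 := by
      calc 4 ≤ 2 ^ 3 := by norm_num
        _ ≤ N ^ 3 := Nat.pow_le_pow_left hN2 3
    calc s₀ + (N' * (N' ^ 2 + 1) + 1) = s₀ + (N' ^ 3 + N' + 1) := by ring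
      _ ≤ N ^ (3 * c) + (N ^ (3 * c) + N ^ (3 * c) + N ^ (3 * c)) := by omega
      _ ≤ N ^ (3 * c) * 4 := by omega
      _ ≤ N ^ (3 * c) * N ^ 3 := Nat.mul_le_mul_left _ h6
      _ = N ^ (3 * c + 3) := (pow_add _ _ _).symm
  · rcases le_total (b' * (b' + 2)) m₀ with hmb | hmb
    · rw [max_eq_left hmb]
      exact pow_le_of hm₀ (by omega) (by omega)
    · rw [max_eq_right hmb]
      by_cases hb0 : b' = 0
      · rw [hb0, zero_mul]
        rcases Nat.eq_zero_or_pos q with h | h
        · rw [h, pow_zero]; omega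
        · rw [zero_pow (by omega)]; exact Nat.zero_le _
      · have h1 : b' * (b' + 2) ≤ 4 * b' ^ 2 := by nlinarith [Nat.one_le_iff_ne_zero.2 hb0]
        have h2 : ((b' * (b' + 2)) ^ q) ^ 2 ≤ N ^ 2 := by
          calc ((b' * (b' + 2)) ^ q) ^ 2 ≤ ((4 * b' ^ 2) ^ q) ^ 2 :=
                Nat.pow_le_pow_left (Nat.pow_le_pow_left h1 _) _
            _ = 16 ^ q * b' ^ (4 * q) := by
                rw [mul_pow, mul_pow, ← pow_mul, ← pow_mul, ← pow_mul]
                congr 1
                · rw [mul_comm q 2, pow_mul]; norm_num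
                · congr 1; ring
            _ ≤ N * N := Nat.mul_le_mul hN hb'
            _ = N ^ 2 := by ring
        exact (Nat.pow_le_pow_iff_left (by norm_num)).1 h2
  · rw [map_one, mul_one]

/-- **Polynomials with few monomials.** -/
theorem polyLimit_sparse {s N c Δ q : ℕ} (hN : 1 ≤ N) (hs : s ≤ N ^ c)
    (f : MvPolynomial (Fin s) F) (hf : f.support.card ≤ N ^ c) : PolyLimit N c Δ q f := by
  classical
  set x : Fin s → AF (Fin s) (LaurentSeries F) := fun j =>
    algebraMap (MvPolynomial (Fin s) (LaurentSeries F)) (AF (Fin s) (LaurentSeries F)) (X j)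
    with hx
  obtain ⟨C', hC'⟩ := exists_circuit (s := N ^ c) (Δ := Δ) (m := 0)
    (J := {μ // μ ∈ f.support}) (fun μ => ∏ j : Fin s, x j ^ μ.1 j) (fun _ => 0)
    (fun _ => Nat.zero_le _)
    (fun μ => Or.inl ⟨s, 1, x, fun j => μ.1 j, fun _ => 0,
      hs, one_ne_zero, fun j => X_mem_Lin j, by simp, by simp⟩)
    (by rw [Fintype.card_coe]; exact hf)
  refine ⟨1, one_ne_zero, N ^ c, 0, C', algebraMap (MvPolynomial (Fin s) (LaurentSeries F))
    (AF (Fin s) (LaurentSeries F)) (MvPolynomial.map (HahnSeries.C) f),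
    MvPolynomial.map (HahnSeries.C) f, 1, le_rfl, ?_, ?_,
    ?_, by rw [mul_one]; exact tendsTo_const f, ⟨1, map_one _, map_one _⟩⟩
  · rcases Nat.eq_zero_or_pos q with h | h
    · rw [h, pow_zero]; exact hN
    · rw [zero_pow (by omega)]; exact Nat.zero_le _
  · refine hC' _ ?_
    have h1 : algebraMap (MvPolynomial (Fin s) (LaurentSeries F))
        (AF (Fin s) (LaurentSeries F)) (MvPolynomial.map (HahnSeries.C) f) =
        ∑ μ ∈ f.support, (HahnSeries.C (coeff μ f) : LaurentSeries F) • ∏ j, x j ^ μ j := by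
      conv_lhs => rw [f.as_sum, map_sum, map_sum]
      exact Finset.sum_congr rfl fun μ _ => by rw [MvPolynomial.map_monomial, inc_monomial]
    rw [h1]
    exact Submodule.sum_mem _ fun μ hμ => Submodule.smul_mem _ _ (mem_Lin ⟨⟨μ, hμ⟩, rfl⟩)
  · rw [map_one, mul_one]

end poly

section net
variable {σ : Type} [Fintype σ] {s m d : ℕ} {cls cls' : Set (MvPolynomial (Fin s) ℝ)}

/-- A larger class. -/
def Op.mono (h : cls ⊆ cls') : Op σ s m d cls → Op σ s m d cls'
  | .fn D φ isOpen smooth arg => .fn D φ isOpen smooth arg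
  | .poly p mem arg => .poly p (h mem) arg

theorem Op.mono_gives (h : cls ⊆ cls') (o : Op σ s m d cls) (x : σ → ℝ) (v : Fin s → ℝ) (y : ℝ) :
    (o.mono h).Gives x v y ↔ o.Gives x v y := by
  cases o <;> exact Iff.rfl

theorem Op.mono_reads (h : cls ⊆ cls') (o : Op σ s m d cls) (i : Fin s) :
    (o.mono h).Reads i ↔ o.Reads i := by
  cases o <;> exact Iff.rfl

theorem Network.exists_mono {Δ Δ' : ℕ} (h : cls ⊆ cls') (hΔ : Δ ≤ Δ')
    (P : Network σ s Δ m d cls) : ∃ P' : Network σ s Δ' m d cls',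
      ∀ x y, P.Outputs x y → P'.Outputs x y := by
  refine ⟨⟨fun i => Op.mono h '' P.ops i, fun i => (P.countable_ops i).image _, P.depth,
    fun i => (P.depth_le i).trans hΔ, ?_, P.out, P.countable_out⟩, ?_⟩
  · rintro i _ ⟨o, ho, rfl⟩ i' hi'
    exact P.reads i o ho i' ((Op.mono_reads h o i').1 hi')
  · rintro x y ⟨v, hv, a, ha, hy⟩
    refine ⟨v, fun i => ?_, a, ha, hy⟩
    obtain ⟨o, ho, ho'⟩ := hv i
    exact ⟨_, ⟨o, ho, rfl⟩, (Op.mono_gives h o x v _).2 ho'⟩

end net

/-- The polynomials in `s` variables which are limits for `ε → 0` of rational functions over `ℝ((ε))`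
computed over `ℝ((ε))` by a circuit of depth `Δ` with at most `N ^ c` gates, which may be arbitrary
algebraic functions of `m` inputs, `m ^ q ≤ N` (`PolyLimit`), or limits of determinants of matrices
of order at most `N ^ c` which have an elimination forest of height `Δ` with bags of size at most
`b`, `b ^ q ≤ N`, and whose entries are computed by such a circuit (`MatrixLimit`). -/
def Rich (N c Δ q s : ℕ) : Set (MvPolynomial (Fin s) ℝ) :=
  {p | PolyLimit N c Δ q p ∨ MatrixLimit N c Δ q p}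

/-- There is a network of depth `Δ` with `s ≤ N ^ c` gates, which are `d` times continuously
differentiable functions of `m` arguments, `m ^ q ≤ N`, on open sets, or polynomials with the property
`PolyLimit N c Δ q`, such that the points `x` at which it may give out `f(x)` form a set which is not
null or not meagre. -/
def Attained {n : ℕ} (N c Δ q d : ℕ) (f : MvPolynomial (Fin n) ℝ) : Prop :=
  ∃ (s m : ℕ) (P : Network (Fin n) s Δ m d {p | PolyLimit N c Δ q p}), s ≤ N ^ c ∧ m ^ q ≤ N ∧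
    Large {x | P.Outputs x (eval x f)}

/-- **The generator does not vanish.** -/
theorem attained_hits (c Δ k : ℕ) (hk : k ≠ 0) : ∃ a b q₀ N₀ : ℕ, 0 < a ∧ 0 < b ∧
    ∀ N, N₀ ≤ N → ∀ q : ℕ, q.Prime → Fintype.card (Cell a b (blockLen a b k N)) ≤ q →
    q ≤ 2 * Fintype.card (Cell a b (blockLen a b k N)) →
    (Fintype.card (Cell a b (blockLen a b k N)) * q) ^ k ≤ N ∧
    ∀ pos : Cell a b (blockLen a b k N) → ZMod q, Function.Injective pos →
    ∀ n : ℕ, n ≤ N → ∀ f : MvPolynomial (Fin n) ℝ, f ≠ 0 → Attained N c Δ q₀ (a + b) f →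
      aeval (fun j : Fin n => G ℝ (2 * k + 1) pos j) f ≠ 0 := by
  obtain ⟨a, b, q₀, N₀, ha, hb, H⟩ := net_hits c Δ k hk
  refine ⟨a, b, q₀, N₀, ha, hb, ?_⟩
  intro N hN q hq hq1 hq2
  obtain ⟨h1, H⟩ := H N hN q hq hq1 hq2
  refine ⟨h1, ?_⟩
  rintro pos hpos n hn f hf0 ⟨s, m, P, hs, hm, hP⟩
  refine H pos hpos n s m hn hs hm P f hf0 ?_
  have h1 : P.Agree f 1 = {x | P.Outputs x (eval x f)} := by
    ext x
    constructor
    · rintro ⟨y, hy, hy'⟩
      rw [map_one, mul_one] at hy'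
      rw [hy'] at hy
      exact hy
    · intro hx
      exact ⟨_, hx, by rw [map_one, mul_one]⟩
  rw [h1]
  exact hP

/-- There is a network of depth `Δ` with `s ≤ N ^ c` gates, which are `d` times continuously
differentiable functions of `m` arguments, `m ^ q ≤ N`, on open sets, or polynomials of the class
`Rich N c Δ q s`, such that the points `x` at which it may give out a number `y` with
`y * k(x) = f(x)` form a set which is not null or not meagre. -/
def Superposed {σ : Type} [Fintype σ] (N c Δ q d : ℕ) (f k : MvPolynomial σ ℝ) : Prop :=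
  ∃ (s m : ℕ) (P : Network σ s Δ m d (Rich N c Δ q s)), s ≤ N ^ c ∧ m ^ q ≤ N ∧
    Large {x | ∃ y, P.Outputs x y ∧ y * eval x k = eval x f}

theorem Superposed.exists_net {σ : Type} [Fintype σ] {N c Δ q d : ℕ} {f k : MvPolynomial σ ℝ}
    (hN : 16 ^ q ≤ N) (hN2 : 2 ≤ N) (h : Superposed N c Δ (4 * q) d f k) :
    ∃ (s m : ℕ) (P : Network σ s (Δ + Δ + 2) m d
      {p | PolyLimit N (3 * c + 3) (Δ + Δ + 2) q p}), s ≤ N ^ (3 * c + 3) ∧ m ^ q ≤ N ∧
      Large (P.Agree f k) := by
  obtain ⟨s, m, P, hs, hm, hP⟩ := h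
  have hcls : Rich N c Δ (4 * q) s ⊆
      {p | PolyLimit N (3 * c + 3) (Δ + Δ + 2) q p} := by
    rintro p (hp | hp)
    · exact polyLimit_mono (by omega) (by omega) (by omega) (by omega) hp
    · exact polyLimit_of_matrix hN hN2 hp
  obtain ⟨P', hP'⟩ := P.exists_mono hcls (show Δ ≤ Δ + Δ + 2 by omega)
  refine ⟨s, m, P', hs.trans (Nat.pow_le_pow_right (by omega) (by omega)),
    pow_le_of hm (by omega) (by omega), ?_⟩
  have hsub : {x | ∃ y, P.Outputs x y ∧ y * eval x k = eval x f} ⊆ P'.Agree f k := by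
    rintro x ⟨y, hy, hy'⟩
    exact ⟨y, hP' x y hy, hy'⟩
  rcases hP with h | h
  · exact Or.inl fun h0 => h (MeasureTheory.measure_mono_null hsub h0)
  · exact Or.inr fun h0 => h (h0.mono hsub)

/-- **The generator does not vanish.** -/
theorem superposed_hits (c Δ k : ℕ) (hk : k ≠ 0) : ∃ a b q₀ N₀ : ℕ, 0 < a ∧ 0 < b ∧
    ∀ N, N₀ ≤ N → ∀ q : ℕ, q.Prime → Fintype.card (Cell a b (blockLen a b k N)) ≤ q →
    q ≤ 2 * Fintype.card (Cell a b (blockLen a b k N)) →
    (Fintype.card (Cell a b (blockLen a b k N)) * q) ^ k ≤ N ∧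
    ∀ pos : Cell a b (blockLen a b k N) → ZMod q, Function.Injective pos →
    ∀ n : ℕ, n ≤ N → ∀ f : MvPolynomial (Fin n) ℝ, f ≠ 0 → Superposed N c Δ q₀ (a + b) f 1 →
      aeval (fun j : Fin n => G ℝ (2 * k + 1) pos j) f ≠ 0 := by
  obtain ⟨a, b, q₀, N₀, ha, hb, H⟩ := net_hits (3 * c + 3) (Δ + Δ + 2) k hk
  refine ⟨a, b, 4 * q₀, N₀ + 16 ^ q₀ + 2, ha, hb, ?_⟩
  intro N hN q hq hq1 hq2
  have hn0 : N₀ ≤ N := (Nat.le_add_right _ _).trans ((Nat.le_add_right _ _).trans hN)
  have hn16 : 16 ^ q₀ ≤ N := (Nat.le_add_left _ _).trans ((Nat.le_add_right _ _).trans hN)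
  have hn2 : 2 ≤ N := (Nat.le_add_left _ _).trans hN
  obtain ⟨h1, H⟩ := H N hn0 q hq hq1 hq2
  refine ⟨h1, ?_⟩
  intro pos hpos n hn f hf0 hf
  obtain ⟨s, m, P, hs, hm, hP⟩ := hf.exists_net hn16 hn2
  exact H pos hpos n s m hn hs hm P f hf0 hP

end Pool.Agent.Y531.Snet
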