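import Pool.Agent.Y531.Hlim.Easy

/-!
# The expansion of a limit of functions computed by circuits
-/

set_option autoImplicit false
set_option linter.unusedSectionVars false
set_option maxHeartbeats 2000000
set_option synthInstance.maxHeartbeats 200000

namespace Pool.Agent.Y531.Snet

open Finset MvPolynomial Pool.Agent.W942 Pool.Agent.Y531 Pool.Agent.Y531.Mul Pool.Agent.Y531.Hit
  Pool.Agent.Y531.Hlim

section desc
variable {ι U V : Type*} [DecidableEq ι] {M K : Type*} [Field M] [Field K] {Φ : Frame ι U V}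
  {T : ℕ} {X : ℝ}

/-- **Specialisation.** -/
theorem good_desc (φ : PowerSeries M →+* K) (hφ : Function.Injective φ)
    {P : SF ι (U → V → PowerSeries M)} (hP : Good Φ T X (SF.mapR (SF.push φ) P)) :
    Good Φ T X (SF.mapR (SF.push (PowerSeries.constantCoeff (R := M))) P) := fun B => by
  refine ⟨fun u v u' v' H => ?_, fun hB => ?_⟩
  · have h1 := (hP B).1 u v u' v' H
    rw [SF.mapR_apply, SF.push_apply, SF.push_apply] at h1
    rw [SF.mapR_apply, SF.push_apply, SF.push_apply, hφ h1]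
  · obtain ⟨r, h2, h3⟩ := (hP B).2 hB
    have h4 : HasRk (fun u v => φ (P B u v)) r := h2.congr fun u v => rfl
    have h5 := coeff_rk (N := P B) (r := r) φ hφ h4 0
    rw [zero_add, one_mul] at h5
    refine ⟨r, h5.congr fun u v => ?_, h3⟩
    rw [SF.mapR_apply, SF.push_apply, PowerSeries.coeff_zero_eq_constantCoeff_apply]

/-- **Extension of the field.** -/
theorem good_field (j : M →+* K) {P : SF ι (U → V → M)} (hP : Good Φ T X (SF.mapR (SF.push j) P)) :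
    Good Φ T X P := fun B => by
  refine ⟨fun u v u' v' H => ?_, fun hB => ?_⟩
  · have h1 := (hP B).1 u v u' v' H
    rw [SF.mapR_apply, SF.push_apply, SF.push_apply] at h1
    exact j.injective h1
  · obtain ⟨r, h2, h3⟩ := (hP B).2 hB
    have h4 : HasRk (fun u v => j (P B u v)) r := h2.congr fun u v => rfl
    exact ⟨r, HasRk_descend j r (P B) h4, h3⟩

end desc

variable {a b h : ℕ}

/-- **The limit.** -/
theorem eps_good {σ F M K : Type*} [Fintype σ] [Field F] [CharZero F] [Field M] [Field K]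
    [IsAlgClosed K] {s Δ m : ℕ} {T : ℕ → ℕ} (jK : LaurentSeries M →+* K) (γ : F →+* M)
    (ϑ₃ : σ → SF (Fin b ⊕ Fin a) (FF a b h M)) (z₃ : σ → M)
    (hϑ₃ : ∀ j, ϑ₃ j ∅ = algebraMap M (FF a b h M) (z₃ j))
    (hgen : ∀ p : MvPolynomial σ F, p ≠ 0 → p.eval₂ γ z₃ ≠ 0)
    (hT0 : 2 ≤ T 0) (hTm : Monotone T) {ϑ : ℝ} (hϑ0 : 0 < ϑ)
    (hscale : ∀ k, k < 2 * Δ + 2 → ∃ z : ℝ, 0 ≤ z ∧ z ≤ 1 ∧ NumScale a b h (T k) z ∧
      z ^ (T (k + 1)) ≤ ϑ)
    (hvar : ∀ j, Good (bitFrame a b h) (T 0) ϑ (ϑ₃ j))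
    (C : Mul.Circuit σ (LaurentSeries F) s Δ m)
    (f₃ h₃ : MvPolynomial σ (PowerSeries F)) {R₀ : AF σ (LaurentSeries F)}
    (hC : C.Computes R₀)
    (hR : R₀ * algebraMap (MvPolynomial σ (LaurentSeries F)) _
        (MvPolynomial.map (HahnSeries.ofPowerSeries ℤ F) h₃) =
      algebraMap (MvPolynomial σ (LaurentSeries F)) _
        (MvPolynomial.map (HahnSeries.ofPowerSeries ℤ F) f₃))
    {g : MvPolynomial σ F}
    (hg : MvPolynomial.map PowerSeries.constantCoeff f₃ =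
      g * MvPolynomial.map PowerSeries.constantCoeff h₃)
    (hh : MvPolynomial.map PowerSeries.constantCoeff h₃ ≠ 0) :
    Good (bitFrame a b h) (T (2 * Δ + 2)) (((Fintype.card σ : ℝ) + s + 1) *
      (cost (Fintype.card σ) s m (a + b) ^ (Δ + 1) * ϑ)) (thS γ ϑ₃ g) := by
  classical
  let γ₄ : PowerSeries F →+* PowerSeries M := PowerSeries.map γ
  let cM : FF a b h M →+* FF a b h (PowerSeries M) := SF.push PowerSeries.C
  let ϑ₄ : σ → SF (Fin b ⊕ Fin a) (FF a b h (PowerSeries M)) := fun j => SF.mapR cM (ϑ₃ j)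
  have hϑ₄ : ∀ j, ϑ₄ j ∅ = algebraMap (PowerSeries M) (FF a b h (PowerSeries M))
      (PowerSeries.C (z₃ j)) := by
    intro j
    show cM (ϑ₃ j ∅) = _
    rw [hϑ₃]
    rfl
  let O₂ : PowerSeries M →+* LaurentSeries M := HahnSeries.ofPowerSeries ℤ M
  let φ : PowerSeries M →+* K := jK.comp O₂
  have hφ : Function.Injective φ := jK.injective.comp HahnSeries.ofPowerSeries_injective
  let γK : LaurentSeries F →+* K := jK.comp (hmap γ)
  let pK : FF a b h (PowerSeries M) →+* FF a b h K := SF.push φ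
  let ϑK : σ → SF (Fin b ⊕ Fin a) (FF a b h K) := fun j => SF.mapR pK (ϑ₄ j)
  let zK : σ → K := fun j => jK (HahnSeries.C (z₃ j))
  have hϑK : ∀ j, ϑK j ∅ = algebraMap K (FF a b h K) (zK j) := by
    intro j
    show pK (ϑ₄ j ∅) = _
    rw [hϑ₄]
    funext u v
    show jK (HahnSeries.ofPowerSeries ℤ _ (PowerSeries.C (z₃ j))) = jK (HahnSeries.C (z₃ j))
    rw [ofPS_C]
  have hne : ∀ p : MvPolynomial σ (LaurentSeries F), p ≠ 0 → p.eval₂ γK zK ≠ 0 := by
    intro p hp h0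
    have h1 := eval_ne_zero γ z₃ hgen p hp
    apply h1
    apply jK.injective
    rw [map_zero, ← h0]
    exact (MvPolynomial.eval₂_comp_left jK (hmap γ)
      (fun x => (HahnSeries.C (z₃ x) : LaurentSeries M)) p)
  have hchL : CharZero (LaurentSeries F) :=
    charZero_of_injective_algebraMap (algebraMap F (LaurentSeries F)).injective
  obtain ⟨Φ, hΦ1, hΦ2⟩ := exists_expansion (thS γK ϑK)
    (fun p => ⟨_, thS_empty γK ϑK hϑK p⟩) (fun p hp h0 => by
      rw [thS_empty γK ϑK hϑK] at h0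
      exact hne p hp (congrFun (congrFun h0 (fun _ => true)) (fun _ => true)))
  let _ : Algebra (LaurentSeries F) K := γK.toAlgebra
  let Θ : AF σ (LaurentSeries F) →ₐ[LaurentSeries F]
      SF (Fin b ⊕ Fin a) ((Ed a b h → Bool) → (Ed a b h → Bool) → K) :=
    { Φ with
      commutes' := fun c => by
        show Φ (algebraMap _ _ c) = _
        rw [IsScalarTower.algebraMap_apply (LaurentSeries F)
          (MvPolynomial σ (LaurentSeries F)), hΦ1, MvPolynomial.algebraMap_eq, thS_C]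
        rfl }
  have hΘ : ∀ p : MvPolynomial σ (LaurentSeries F),
      Θ (algebraMap _ _ p) = thS γK ϑK p := hΦ1
  have hvarK : ∀ j : σ, Good (bitFrame a b h) (T 0) ϑ (ϑK j) := by
    intro j
    have h1 : ϑK j = SF.mapR (SF.push (φ.comp (PowerSeries.C (R := M)))) (ϑ₃ j) := rfl
    rw [h1]
    exact Good_push _ (hvar j)
  have hout := circuit_good' (T := T) (ϑ := ϑ) (Δ := Δ) hT0 hTm hϑ0
    (fun k hk => hscale k hk) Θ hΦ2
    (fun j => by rw [hΘ, thS_X]; exact hvarK j) C hC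
  set Pt := Θ R₀ with hPt
  have hPR : Pt * thS γK ϑK (MvPolynomial.map (HahnSeries.ofPowerSeries ℤ F) h₃) =
      thS γK ϑK (MvPolynomial.map (HahnSeries.ofPowerSeries ℤ F) f₃) := by
    have h1 := congrArg Θ hR
    rw [map_mul, hΘ, hΘ] at h1
    exact h1
  -- over the power series in `ε`
  have hpre : ∀ p : MvPolynomial σ (PowerSeries F),
      SF.mapR pK (thS γ₄ ϑ₄ p) =
        thS γK ϑK (MvPolynomial.map (HahnSeries.ofPowerSeries ℤ F) p) := by
    intro p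
    show SF.mapR (SF.push φ) (thS γ₄ ϑ₄ p) = _
    rw [thS_map, thS_pre]
    congr 1
    congr 1
    refine RingHom.ext fun p => ?_
    show jK (O₂ (PowerSeries.map γ p)) = jK (hmap γ (HahnSeries.ofPowerSeries ℤ F p))
    rw [hmap_ofPS]
  let cc : FF a b h (PowerSeries M) →+* FF a b h M := SF.push PowerSeries.constantCoeff
  have hccϑ : (fun j => SF.mapR cc (ϑ₄ j)) = ϑ₃ := by
    funext j
    refine SF.ext' fun B => ?_
    funext u v
    show PowerSeries.constantCoeff (PowerSeries.C (ϑ₃ j B u v)) = _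
    rw [PowerSeries.constantCoeff_C]
  have hcc : ∀ p : MvPolynomial σ (PowerSeries F),
      SF.mapR cc (thS γ₄ ϑ₄ p) = thS γ ϑ₃ (MvPolynomial.map PowerSeries.constantCoeff p) := by
    intro p
    have h1 := thS_map γ₄ ϑ₄ (PowerSeries.constantCoeff (R := M)) p
    refine h1.trans ?_
    rw [thS_pre]
    have h2 : (fun x => SF.mapR (SF.push (PowerSeries.constantCoeff (R := M))) (ϑ₄ x)) = ϑ₃ := hccϑ
    rw [h2]
    congr 1
  have hunitO : ∀ p : MvPolynomial σ (PowerSeries F),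
      MvPolynomial.map PowerSeries.constantCoeff p ≠ 0 → IsUnit (thS γ₄ ϑ₄ p) := by
    intro p hp
    apply SF.isUnit_of_apply_empty
    rw [thS_empty γ₄ ϑ₄ hϑ₄]
    refine IsUnit.map (algebraMap _ _) ?_
    rw [PowerSeries.isUnit_iff_constantCoeff, isUnit_iff_ne_zero]
    have h1 : PowerSeries.constantCoeff (p.eval₂ γ₄ (fun j => PowerSeries.C (z₃ j))) =
        (MvPolynomial.map PowerSeries.constantCoeff p).eval₂ γ z₃ := by
      rw [MvPolynomial.eval₂_comp_left (PowerSeries.constantCoeff (R := M)),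
        MvPolynomial.eval₂_map]
      congr 1
    rw [h1]
    exact hgen _ hp
  obtain ⟨wh, hwh⟩ := (hunitO h₃ hh).exists_right_inv
  have hPO1 : SF.mapR pK (thS γ₄ ϑ₄ f₃ * wh) = Pt := by
    have h1 : SF.mapR pK (thS γ₄ ϑ₄ h₃) * SF.mapR pK wh = 1 := by rw [← map_mul, hwh, map_one]
    rw [hpre] at h1
    calc SF.mapR pK (thS γ₄ ϑ₄ f₃ * wh)
        = (Pt * thS γK ϑK (MvPolynomial.map (HahnSeries.ofPowerSeries ℤ F) h₃)) *
          SF.mapR pK wh := by rw [map_mul, hpre, hPR]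
      _ = Pt * (thS γK ϑK (MvPolynomial.map (HahnSeries.ofPowerSeries ℤ F) h₃) *
          SF.mapR pK wh) := by ring
      _ = Pt := by rw [h1, mul_one]
  have hPδ : SF.mapR cc (thS γ₄ ϑ₄ f₃ * wh) = thS γ ϑ₃ g := by
    have h1 : SF.mapR cc (thS γ₄ ϑ₄ h₃) * SF.mapR cc wh = 1 := by
      rw [← map_mul, hwh, map_one]
    rw [hcc] at h1
    rw [map_mul, hcc, hg, map_mul, mul_assoc, h1, mul_one]
  rw [← hPδ]
  refine good_desc φ hφ ?_
  have h1 : SF.mapR (SF.push φ) (thS γ₄ ϑ₄ f₃ * wh) = Pt := hPO1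
  rw [h1]
  exact hout

/-- **Two limits.** -/
theorem delta_good {σ F M K : Type*} [Fintype σ] [Field F] [CharZero F] [Field M] [Field K]
    [IsAlgClosed K] {s Δ m : ℕ} {T : ℕ → ℕ} (jK : LaurentSeries (LaurentSeries M) →+* K)
    (γ₁ : F →+* M) (ϑ₁ : σ → SF (Fin b ⊕ Fin a) (FF a b h M)) (c₁ y : σ → M)
    (hϑ₁ : ∀ j, ϑ₁ j ∅ = algebraMap M (FF a b h M) (c₁ j))
    (hy : ∀ p : MvPolynomial σ F, p ≠ 0 → p.eval₂ γ₁ y ≠ 0)
    (hT0 : 2 ≤ T 0) (hTm : Monotone T) {ϑ : ℝ} (hϑ0 : 0 < ϑ)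
    (hscale : ∀ k, k < 2 * Δ + 2 → ∃ z : ℝ, 0 ≤ z ∧ z ≤ 1 ∧ NumScale a b h (T k) z ∧
      z ^ (T (k + 1)) ≤ ϑ)
    (hvar : ∀ j, Good (bitFrame a b h) (T 0) ϑ (ϑ₁ j))
    (C : Mul.Circuit σ (LaurentSeries F) s Δ m)
    (f₃ h₃ : MvPolynomial σ (PowerSeries F)) {R₀ : AF σ (LaurentSeries F)}
    (hC : C.Computes R₀)
    (hR : R₀ * algebraMap (MvPolynomial σ (LaurentSeries F)) _
        (MvPolynomial.map (HahnSeries.ofPowerSeries ℤ F) h₃) =
      algebraMap (MvPolynomial σ (LaurentSeries F)) _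
        (MvPolynomial.map (HahnSeries.ofPowerSeries ℤ F) f₃))
    {g : MvPolynomial σ F}
    (hg : MvPolynomial.map PowerSeries.constantCoeff f₃ =
      g * MvPolynomial.map PowerSeries.constantCoeff h₃)
    (hh : MvPolynomial.map PowerSeries.constantCoeff h₃ ≠ 0) :
    Good (bitFrame a b h) (T (2 * Δ + 2)) (((Fintype.card σ : ℝ) + s + 1) *
      (cost (Fintype.card σ) s m (a + b) ^ (Δ + 1) * ϑ)) (thS γ₁ ϑ₁ g) := by
  classical
  let cM : FF a b h M →+* FF a b h (PowerSeries M) := SF.push PowerSeries.C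
  let w₂ : σ → PowerSeries M := fun j => PowerSeries.X * PowerSeries.C (y j)
  let γ₂ : F →+* PowerSeries M := (PowerSeries.C).comp γ₁
  let ϑ₂ : σ → SF (Fin b ⊕ Fin a) (FF a b h (PowerSeries M)) := fun j =>
    SF.mapR cM (ϑ₁ j) + SF.cst (algebraMap (PowerSeries M) (FF a b h (PowerSeries M)) (w₂ j))
  have hϑ₂ : ∀ j, ϑ₂ j ∅ = algebraMap (PowerSeries M) (FF a b h (PowerSeries M))
      (PowerSeries.C (c₁ j) + w₂ j) := by
    intro j
    show cM (ϑ₁ j ∅) + (SF.cst (algebraMap (PowerSeries M) (FF a b h (PowerSeries M)) (w₂ j)) :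
      SF (Fin b ⊕ Fin a) (FF a b h (PowerSeries M))) ∅ = _
    rw [hϑ₁, SF.cst_apply, if_pos rfl]
    rfl
  let O₁ : PowerSeries M →+* LaurentSeries M := HahnSeries.ofPowerSeries ℤ M
  let oM : FF a b h (PowerSeries M) →+* FF a b h (LaurentSeries M) := SF.push O₁
  let γ₃ : F →+* LaurentSeries M := O₁.comp γ₂
  let ϑ₃ : σ → SF (Fin b ⊕ Fin a) (FF a b h (LaurentSeries M)) := fun j => SF.mapR oM (ϑ₂ j)
  let z₃ : σ → LaurentSeries M := fun j => O₁ (PowerSeries.C (c₁ j) + w₂ j)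
  have hϑ₃ : ∀ j, ϑ₃ j ∅ = algebraMap (LaurentSeries M) (FF a b h (LaurentSeries M)) (z₃ j) := by
    intro j
    show oM (ϑ₂ j ∅) = _
    rw [hϑ₂]
    rfl
  have hγ₃ : γ₃ = (HahnSeries.C : M →+* LaurentSeries M).comp γ₁ := by
    refine RingHom.ext fun r => ?_
    exact ofPS_C (γ₁ r)
  have hz₃ : z₃ = fun j => HahnSeries.C (c₁ j) + tau M * HahnSeries.C (y j) := by
    funext j
    show O₁ (PowerSeries.C (c₁ j) + PowerSeries.X * PowerSeries.C (y j)) = _
    rw [map_add, map_mul]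
    show HahnSeries.ofPowerSeries ℤ M (PowerSeries.C (c₁ j)) +
      HahnSeries.ofPowerSeries ℤ M PowerSeries.X * HahnSeries.ofPowerSeries ℤ M
        (PowerSeries.C (y j)) = _
    rw [ofPS_C, ofPS_C, ofPS_X]
  have hgen₃ : ∀ p : MvPolynomial σ F, p ≠ 0 → p.eval₂ γ₃ z₃ ≠ 0 := by
    intro p hp
    rw [hγ₃, hz₃]
    exact eval_ne_zero_near γ₁ c₁ y hy p hp
  have hvar₃ : ∀ j, Good (bitFrame a b h) (T 0) ϑ (ϑ₃ j) := by
    intro j
    have h1 : ϑ₃ j = SF.mapR (SF.push (O₁.comp (PowerSeries.C (R := M)))) (ϑ₁ j) +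
        SF.cst (fun _ _ => O₁ (w₂ j)) := by
      show SF.mapR oM (SF.mapR cM (ϑ₁ j) +
        SF.cst (algebraMap (PowerSeries M) (FF a b h (PowerSeries M)) (w₂ j))) = _
      rw [map_add, SF.mapR_cst]
      rfl
    rw [h1]
    exact Good_add_cst (by omega) (Good_push (O₁.comp (PowerSeries.C (R := M))) (hvar j))
      (O₁ (w₂ j))
  have hgood := eps_good jK γ₃ ϑ₃ z₃ hϑ₃ hgen₃ hT0 hTm hϑ0 hscale hvar₃ C f₃ h₃ hC hR hg hh
  have hP₃ : SF.mapR (SF.push O₁) (thS γ₂ ϑ₂ g) = thS γ₃ ϑ₃ g := thS_map γ₂ ϑ₂ O₁ g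
  have hP₁ : SF.mapR (SF.push (PowerSeries.constantCoeff (R := M))) (thS γ₂ ϑ₂ g) =
      thS γ₁ ϑ₁ g := by
    rw [thS_map]
    have h1 : (PowerSeries.constantCoeff (R := M)).comp γ₂ = γ₁ := by
      refine RingHom.ext fun r => ?_
      show PowerSeries.constantCoeff (PowerSeries.C (γ₁ r)) = _
      rw [PowerSeries.constantCoeff_C]
    have h2 : (fun j => SF.mapR (SF.push (PowerSeries.constantCoeff (R := M))) (ϑ₂ j)) = ϑ₁ := by
      funext j
      refine SF.ext' fun B => ?_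
      funext u v
      show PowerSeries.constantCoeff (PowerSeries.C (ϑ₁ j B u v) +
        (SF.cst (algebraMap (PowerSeries M) (FF a b h (PowerSeries M)) (w₂ j)) :
          SF (Fin b ⊕ Fin a) (FF a b h (PowerSeries M))) B u v) = _
      rw [map_add, PowerSeries.constantCoeff_C, SF.cst_apply]
      by_cases hB : B = ∅
      · rw [if_pos hB]
        show ϑ₁ j B u v + PowerSeries.constantCoeff (PowerSeries.X * PowerSeries.C (y j)) = _
        rw [map_mul, PowerSeries.constantCoeff_X, zero_mul, add_zero]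
      · rw [if_neg hB]
        show ϑ₁ j B u v + PowerSeries.constantCoeff 0 = _
        rw [map_zero, add_zero]
    rw [h1, h2]
  rw [← hP₁]
  refine good_desc O₁ HahnSeries.ofPowerSeries_injective ?_
  rw [hP₃]
  exact hgood

universe u

/-- **The expansion of a limit of functions computed by circuits.** -/
theorem limit_good {σ : Type} {F : Type u} [Fintype σ] [Field F] [CharZero F]
    {n c Δ q : ℕ} {g : MvPolynomial σ F} (hg : PolyLimit n c Δ q g) :
    ∃ s m : ℕ, s ≤ n ^ c ∧ m ^ q ≤ n ∧ ∀ {T : ℕ → ℕ} (_ : 2 ≤ T 0) (_ : Monotone T) {ϑ : ℝ}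
      (_ : 0 < ϑ) (_ : ∀ k, k < 2 * Δ + 2 → ∃ z : ℝ, 0 ≤ z ∧ z ≤ 1 ∧ NumScale a b h (T k) z ∧
        z ^ (T (k + 1)) ≤ ϑ) (E : σ → SF (Fin b ⊕ Fin a) (FF a b h F)) (c₁ : σ → F)
      (_ : ∀ j, E j ∅ = algebraMap F (FF a b h F) (c₁ j))
      (_ : ∀ j, Good (bitFrame a b h) (T 0) ϑ (E j)),
      Good (bitFrame a b h) (T (2 * Δ + 2)) (((Fintype.card σ : ℝ) + s + 1) *
        (cost (Fintype.card σ) s m (a + b) ^ (Δ + 1) * ϑ)) (thS (RingHom.id F) E g) := by
  classical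
  obtain ⟨h', hh', s, m, C, R, P, Q, hs, hm, hC, hR, ⟨f₃, rfl, hf₃⟩, ⟨h₃, rfl, rfl⟩⟩ := hg
  refine ⟨s, m, hs, hm, ?_⟩
  intro T hT0 hTm ϑ hϑ0 hscale E c₁ hE hgood
  let φ : F →+* RG σ F := algebraMap F (RG σ F)
  obtain ⟨K, _, _, ⟨jK⟩⟩ := exists_closure (RG σ F)
  have h1 := delta_good (h := h) (γ₁ := φ) (T := T) jK (fun j => SF.mapR (SF.push φ) (E j))
    (fun j => φ (c₁ j)) (xg σ F) (fun j => by
      show SF.push φ (E j ∅) = _
      rw [hE]
      rfl) (fun p hp h0 => hp (IsFractionRing.injective (MvPolynomial σ F) (RG σ F) (by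
      rw [map_zero, ← eval_xg, h0]))) hT0 hTm hϑ0 hscale (fun j => Good_push φ (hgood j)) C f₃ h₃
    hC hR hf₃ hh'
  have h2 : thS φ (fun j => SF.mapR (SF.push φ) (E j)) g =
      SF.mapR (SF.push φ) (thS (RingHom.id F) E g) := by
    rw [thS_map, RingHom.comp_id]
  rw [h2] at h1
  exact good_field φ h1

end Pool.Agent.Y531.Snet
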