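import Pool.Agent.Y531.Snet.Run
import Pool.Agent.Y531.Snet.Good
import Pool.Agent.Y531.Sgen.Jets

/-!
# The Taylor polynomials of the values of a network along nilpotent leaves
-/

set_option autoImplicit false
set_option linter.unusedSectionVars false
set_option maxHeartbeats 1000000
set_option synthInstance.maxHeartbeats 200000

namespace Pool.Agent.Y531.Snet

open MvPolynomial Pool.Agent.W942 Pool.Agent.Y531 Pool.Agent.Y531.Mul Pool.Agent.Y531.Hit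
open Pool.Agent.Y531.Smooth hiding Op GOp Op.Gives Op.Reads rounds rounds_eq Op.exists_gops rounds_good
open Pool.Agent.Y531.Hlim Pool.Agent.Y531.Sgen MeasureTheory

/-- The polynomial preserves good expansions, with `κ` thresholds and the loss `K`. -/
def Mild {J : Type} (a b h κ : ℕ) (K : ℝ) (p : MvPolynomial J ℝ) : Prop :=
  ∀ (T : ℕ → ℕ), 2 ≤ T 0 → Monotone T → ∀ ϑ : ℝ, 0 < ϑ →
    (∀ k, k < κ → ∃ z : ℝ, 0 ≤ z ∧ z ≤ 1 ∧ NumScale a b h (T k) z ∧ z ^ (T (k + 1)) ≤ ϑ) →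
    ∀ (E : J → SF (Fin b ⊕ Fin a) (FF a b h ℝ)) (c₁ : J → ℝ),
    (∀ j, E j ∅ = algebraMap ℝ (FF a b h ℝ) (c₁ j)) →
    (∀ j, Good (bitFrame a b h) (T 0) ϑ (E j)) →
    Good (bitFrame a b h) (T κ) (K * ϑ) (thS (RingHom.id ℝ) E p)

/-- The loss in a round. -/
noncomputable def rcost (n s m d : ℕ) (K : ℝ) : ℝ :=
  ((n : ℝ) + s + 1) * (K + ((m : ℝ) + 1) ^ d * 2 ^ (d ^ 2))

theorem one_le_rcost (n s m d : ℕ) {K : ℝ} (hK : 0 ≤ K) : 1 ≤ rcost n s m d K := by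
  rw [rcost]
  have hn : (0:ℝ) ≤ n := Nat.cast_nonneg n
  have hs : (0:ℝ) ≤ s := Nat.cast_nonneg s
  have hm : (0:ℝ) ≤ m := Nat.cast_nonneg m
  have h1 : (1:ℝ) ≤ ((m : ℝ) + 1) ^ d * 2 ^ (d ^ 2) :=
    one_le_mul_of_one_le_of_one_le (one_le_pow₀ (by linarith)) (one_le_pow₀ (by norm_num))
  exact one_le_mul_of_one_le_of_one_le (by linarith) (by linarith)

variable {a b h : ℕ} {σ : Type}

section
variable [Fintype σ] {s d : ℕ} {cls : Set (MvPolynomial (Fin s) ℝ)} {T₀ : ℕ} {X ϑ : ℝ}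
  {ϑ₀ : σ → SF (Fin b ⊕ Fin a) (FF a b h ℝ)}

/-- **One round.** -/
theorem step {m κ : ℕ} {K : ℝ} (hκ : 1 ≤ κ) (hK : 0 ≤ K) (hcls : ∀ p ∈ cls, Mild a b h κ K p)
    (h0 : ∀ j, ϑ₀ j ∅ = 0)
    (hvar : ∀ j, Good (bitFrame a b h) T₀ ϑ (ϑ₀ j)) (hT₀ : 2 ≤ T₀) {T : ℕ → ℕ}
    (hTT₀ : T₀ ≤ T 0) (hTm : Monotone T) (hϑ : 0 < ϑ) (hX : ϑ ≤ X)
    (hscale : ∀ k, k < κ → ∃ z : ℝ, 0 ≤ z ∧ z ≤ 1 ∧ NumScale a b h (T k) z ∧
      z ^ (T (k + 1)) ≤ ϑ)
    {x : σ → ℝ} {F : (σ → ℝ) → Fin s → ℝ}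
    (hF : ∀ i, ∃ P, PE d (fun z => F z i) x P ∧ Good (bitFrame a b h) (T 0) X (jet ϑ₀ P))
    (g : GOp σ s m d cls) :
    ∃ P, PE d (fun z => g.val z (F z)) x P ∧
      Good (bitFrame a b h) (T κ) (rcost (Fintype.card σ) s m (a + b) K * X) (jet ϑ₀ P) := by
  classical
  choose P hP1 hP2 using hF
  have hcard : Fintype.card (Fin b ⊕ Fin a) = a + b := by
    rw [Fintype.card_sum, Fintype.card_fin, Fintype.card_fin, add_comm]
  have hX0 : 0 < X := hϑ.trans_le hX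
  set N : ℝ := ((Fintype.card σ : ℝ) + s + 1) with hN
  have hs0 : (0:ℝ) ≤ s := Nat.cast_nonneg s
  have hm0 : (0:ℝ) ≤ m := Nat.cast_nonneg m
  have hN1 : 1 ≤ N := by
    have : (0:ℝ) ≤ (Fintype.card σ : ℝ) := Nat.cast_nonneg _
    rw [hN]; linarith
  have hNX : ϑ ≤ N * X := hX.trans (le_mul_of_one_le_left hX0.le hN1)
  have hNX0 : 0 < N * X := hϑ.trans_le hNX
  have hm1 : (0:ℝ) ≤ ((m : ℝ) + 1) ^ (a + b) * 2 ^ ((a + b) ^ 2) := by positivity
  have hce : rcost (Fintype.card σ) s m (a + b) K * X =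
      (K + ((m : ℝ) + 1) ^ (a + b) * 2 ^ ((a + b) ^ 2)) * (N * X) := by
    rw [rcost, hN]; ring
  have hbig : ∀ y : ℝ, y ≤ K + ((m : ℝ) + 1) ^ (a + b) * 2 ^ ((a + b) ^ 2) →
      y * (N * X) ≤ rcost (Fintype.card σ) s m (a + b) K * X := fun y hy => by
    rw [hce]; exact mul_le_mul_of_nonneg_right hy hNX0.le
  have ht := triv_bitFrame (F := ℝ) a b h
  have hcg : ∀ c : Comb σ s, Good (bitFrame a b h) (T 0) (N * X) (jet ϑ₀ (c.poly x P)) :=
    fun c => comb_good (by omega) hTT₀ hϑ.le hX hvar hP2 c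
  cases g with
  | fn φ smooth arg =>
    obtain ⟨z, hz0, hz1, hzs, hzT⟩ := hscale 0 (by omega)
    set y₀ : Fin m → ℝ := fun j => (arg j).val x (F x) with hy₀
    obtain ⟨Q, hQ⟩ := exists_PE d φ smooth y₀
    refine ⟨_, hQ.comp (fun j => (arg j).pe hP1) (fun j => rfl), ?_⟩
    have h1 : jet ϑ₀ (aeval (fun j => (arg j).poly x P - C (y₀ j)) Q) =
        aeval (fun j => jet ϑ₀ ((arg j).poly x P))
          (aeval (fun j => MvPolynomial.X j - C (y₀ j)) Q : MvPolynomial (Fin m) ℝ) := by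
      rw [← AlgHom.comp_apply, ← AlgHom.comp_apply]
      congr 1
      refine MvPolynomial.algHom_ext fun j => ?_
      rw [AlgHom.comp_apply, AlgHom.comp_apply, aeval_X, aeval_X, map_sub, map_sub, aeval_X,
        jet_C, algHom_C]
      rfl
    rw [h1]
    have h2 := poly_good ht hz0 hz1 hϑ.le hNX (scale_of_num hzs) hzT
      (fun j => jet ϑ₀ ((arg j).poly x P)) (fun j => hcg (arg j))
      ((m : ℝ) + 1) (by linarith) (by rw [Fintype.card_fin]; linarith)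
      (aeval (fun j => MvPolynomial.X j - C (y₀ j)) Q)
    refine h2.mono (hTm (by omega)) (hbig _ ?_)
    rw [hcard]
    linarith
  | poly p mem arg =>
    refine ⟨aeval (fun j => (arg j).poly x P) p, PE.aeval (fun j => (arg j).pe hP1) p, ?_⟩
    have h1 : jet ϑ₀ (aeval (fun j => (arg j).poly x P) p) =
        thS (RingHom.id ℝ) (fun j => jet ϑ₀ ((arg j).poly x P)) p := by
      have h2 : (jet ϑ₀).toRingHom.comp (aeval (R := ℝ)
          (fun j => (arg j).poly x P)).toRingHom =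
          thS (RingHom.id ℝ) (fun j => jet ϑ₀ ((arg j).poly x P)) := by
        refine MvPolynomial.ringHom_ext (fun r => ?_) (fun j => ?_)
        · rw [RingHom.comp_apply, thS_C]
          show jet ϑ₀ (aeval _ (C r)) = _
          rw [algHom_C]
          exact jet_C r
        · rw [RingHom.comp_apply, thS_X]
          show jet ϑ₀ (aeval _ (MvPolynomial.X j)) = _
          rw [aeval_X]
      exact congrFun (congrArg DFunLike.coe h2) p
    rw [h1]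
    have h3 := hcls p mem T (hT₀.trans hTT₀) hTm (N * X) hNX0 (fun k hk => by
      obtain ⟨z, hz0, hz1, hzs, hzT⟩ := hscale k hk
      exact ⟨z, hz0, hz1, hzs, hzT.trans hNX⟩) (fun j => jet ϑ₀ ((arg j).poly x P))
      (fun j => eval 0 ((arg j).poly x P)) (fun j => jet_empty h0 _) (fun j => hcg (arg j))
    exact h3.mono le_rfl (hbig _ (by linarith))

/-- **All rounds.** -/
theorem rounds_good {m Δ κ : ℕ} {K : ℝ} (hκ : 1 ≤ κ) (hK : 0 ≤ K)
    (hcls : ∀ p ∈ cls, Mild a b h κ K p) (h0 : ∀ j, ϑ₀ j ∅ = 0) {T : ℕ → ℕ} (hT0 : 2 ≤ T 0)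
    (hTm : Monotone T) {ϑ : ℝ} (hϑ0 : 0 < ϑ)
    (hvar : ∀ j, Good (bitFrame a b h) (T 0) ϑ (ϑ₀ j))
    (hscale : ∀ k, k < κ * (Δ + 1) → ∃ z : ℝ, 0 ≤ z ∧ z ≤ 1 ∧ NumScale a b h (T k) z ∧
      z ^ (T (k + 1)) ≤ ϑ) {x : σ → ℝ} (g : Fin s → GOp σ s m d cls) : ∀ t, t ≤ Δ + 1 → ∀ i,
    ∃ P, PE d (fun z => rounds g t z i) x P ∧ Good (bitFrame a b h) (T (κ * t))
      (rcost (Fintype.card σ) s m (a + b) K ^ t * ϑ) (jet ϑ₀ P) := by
  intro t
  have hc1 : 1 ≤ rcost (Fintype.card σ) s m (a + b) K := one_le_rcost _ _ _ _ hK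
  induction t with
  | zero =>
    intro _ i
    refine ⟨0, ?_, ?_⟩
    · have h1 := PE.const (d := d) (x := x) 0
      rw [map_zero] at h1
      exact h1
    · rw [map_zero]
      exact Good.zero (by positivity)
  | succ t ih =>
    intro ht i
    have hlt : ∀ k, k < κ → κ * t + k < κ * (Δ + 1) := by
      intro k hk
      calc κ * t + k < κ * t + κ := by omega
        _ = κ * (t + 1) := by ring
        _ ≤ κ * (Δ + 1) := Nat.mul_le_mul_left _ ht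
    obtain ⟨P, hP1, hP2⟩ := step (T := fun k => T (κ * t + k)) hκ hK hcls h0 hvar hT0
      (hTm (Nat.zero_le _)) (fun k l hkl => hTm (Nat.add_le_add_left hkl _)) hϑ0
      (X := rcost (Fintype.card σ) s m (a + b) K ^ t * ϑ)
      (le_mul_of_one_le_left hϑ0.le (one_le_pow₀ hc1))
      (fun k hk => hscale (κ * t + k) (hlt k hk)) (ih (by omega)) (g i)
    refine ⟨P, hP1, ?_⟩
    have h1 : rcost (Fintype.card σ) s m (a + b) K ^ (t + 1) * ϑ =
        rcost (Fintype.card σ) s m (a + b) K *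
          (rcost (Fintype.card σ) s m (a + b) K ^ t * ϑ) := by
      ring
    rw [h1]
    have h2 : κ * (t + 1) = κ * t + κ := by ring
    rw [h2]
    exact hP2

/-- **The expansion of a quotient which agrees with the output of a network.** -/
theorem out_good {m Δ κ : ℕ} {K : ℝ} (hκ : 1 ≤ κ) (hK : 0 ≤ K)
    (hcls : ∀ p ∈ cls, Mild a b h κ K p) (h0 : ∀ j, ϑ₀ j ∅ = 0) {T : ℕ → ℕ} (hT0 : 2 ≤ T 0)
    (hTm : Monotone T) {ϑ : ℝ} (hϑ0 : 0 < ϑ)
    (hvar : ∀ j, Good (bitFrame a b h) (T 0) ϑ (ϑ₀ j))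
    (hscale : ∀ k, k < κ * (Δ + 1) → ∃ z : ℝ, 0 ≤ z ∧ z ≤ 1 ∧ NumScale a b h (T k) z ∧
      z ^ (T (k + 1)) ≤ ϑ) {x : σ → ℝ} (g : Fin s → GOp σ s m (a + b) cls)
    (c : Comb σ s) (f k : MvPolynomial σ ℝ)
    (hc : PE (a + b) (fun z => c.val z (rounds g (Δ + 1) z) * eval z k - eval z f) x 0) :
    ∃ (Q : SF (Fin b ⊕ Fin a) (FF a b h ℝ)) (c₀ : ℝ),
      Good (bitFrame a b h) (T (κ * (Δ + 1))) (((Fintype.card σ : ℝ) + s + 1) *
        (rcost (Fintype.card σ) s m (a + b) K ^ (Δ + 1) * ϑ)) Q ∧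
      Q ∅ = algebraMap ℝ (FF a b h ℝ) c₀ ∧
      Q * thS (RingHom.id ℝ) (leafAt ϑ₀ x) k = thS (RingHom.id ℝ) (leafAt ϑ₀ x) f := by
  classical
  have h1 := rounds_good (d := a + b) hκ hK hcls h0 hT0 hTm hϑ0 hvar hscale (x := x) g (Δ + 1)
    le_rfl
  choose P hP1 hP2 using h1
  have hc1 : 1 ≤ rcost (Fintype.card σ) s m (a + b) K := one_le_rcost _ _ _ _ hK
  have h2 := comb_good (x := x) (by omega) (hTm (Nat.zero_le (κ * (Δ + 1)))) hϑ0.le
    (le_mul_of_one_le_left hϑ0.le (one_le_pow₀ hc1)) hvar hP2 c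
  refine ⟨jet ϑ₀ (c.poly x P), eval 0 (c.poly x P), h2, jet_empty h0 _, ?_⟩
  have h3 : PE (a + b) (fun z => c.val z (rounds g (Δ + 1) z)) x (c.poly x P) := c.pe hP1
  have h4 : ∀ f : MvPolynomial σ ℝ, PE (a + b) (fun z => eval z f) x
      (aeval (fun j => C (x j) + MvPolynomial.X j) f) := fun f =>
    PE.aeval (d := a + b) (x := x) (f := fun (j : σ) z => z j)
      (P := fun j => C (x j) + MvPolynomial.X j) (fun j => PE.var j) f
  have h5 := (h3.mul (h4 k)).sub (h4 f)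
  have h6 : jet ϑ₀ (c.poly x P * aeval (fun j => C (x j) + MvPolynomial.X j) k -
      aeval (fun j => C (x j) + MvPolynomial.X j) f) = 0 := by
    refine jet_eq_zero h0 fun μ hμ => ?_
    rw [PE.zero_of_eq h5 hc hμ, coeff_zero]
  rw [map_sub, sub_eq_zero, map_mul, jet_shift, jet_shift] at h6
  exact h6

end

end Pool.Agent.Y531.Snet
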