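import Pool.Agent.Y531.Smooth.Model

/-!
# Networks of differentiable functions and of polynomials of a given class

The values computed by a network are real numbers. Each gate is given a countable set of operations,
and at each input any of them may be applied: a function of `m` arguments which is defined and `d`
times continuously differentiable on an open set, or a polynomial of the class `cls` in `s` arguments.
The arguments are linear combinations of `1`, of the inputs and of gates of smaller depth.
-/

set_option autoImplicit false

namespace Pool.Agent.Y531.Snet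

open Pool.Agent.Y531.Smooth

variable {σ : Type} [Fintype σ] {s m d : ℕ} {cls : Set (MvPolynomial (Fin s) ℝ)}

/-- The operations: a function of `m` linear combinations which is defined on an open set `D` and has
continuous derivatives of the orders `≤ d` there, or a polynomial of the class `cls` in `s`
linear combinations. -/
inductive Op (σ : Type) (s m d : ℕ) (cls : Set (MvPolynomial (Fin s) ℝ)) : Type
  | fn (D : Set (Fin m → ℝ)) (φ : (Fin m → ℝ) → ℝ) (isOpen : IsOpen D)
      (smooth : ContDiffOn ℝ d φ D) (arg : Fin m → Comb σ s) : Op σ s m d cls
  | poly (p : MvPolynomial (Fin s) ℝ) (mem : p ∈ cls) (arg : Fin s → Comb σ s) : Op σ s m d cls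

/-- The operation is defined and its value is `y`. -/
def Op.Gives : Op σ s m d cls → (σ → ℝ) → (Fin s → ℝ) → ℝ → Prop
  | fn D φ _ _ arg, x, v, y => (fun j => (arg j).val x v) ∈ D ∧ y = φ fun j => (arg j).val x v
  | poly p _ arg, x, v, y => y = MvPolynomial.eval (fun j => (arg j).val x v) p

/-- The gate `i` occurs in the arguments of the operation. -/
def Op.Reads (i : Fin s) : Op σ s m d cls → Prop
  | fn _ _ _ _ arg => ∃ j, (arg j).gate i ≠ 0
  | poly _ _ arg => ∃ j, (arg j).gate i ≠ 0

/-- A network with `s` gates, of depth at most `Δ`. -/
structure Network (σ : Type) (s Δ m d : ℕ) (cls : Set (MvPolynomial (Fin s) ℝ)) where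
  /-- the operations which may be applied at a gate -/
  ops : Fin s → Set (Op σ s m d cls)
  countable_ops : ∀ i, (ops i).Countable
  /-- the depth of a gate -/
  depth : Fin s → ℕ
  depth_le : ∀ i, depth i ≤ Δ
  reads : ∀ i, ∀ o ∈ ops i, ∀ i', o.Reads i' → depth i' < depth i
  /-- the linear combinations which may be given out -/
  out : Set (Comb σ s)
  countable_out : out.Countable

/-- For the input `x` and some choice of the operations the output is `y`. -/
def Network.Outputs {Δ : ℕ} (P : Network σ s Δ m d cls) (x : σ → ℝ) (y : ℝ) : Prop :=
  ∃ v : Fin s → ℝ, (∀ i, ∃ o ∈ P.ops i, o.Gives x v (v i)) ∧ ∃ a ∈ P.out, y = a.val x v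

end Pool.Agent.Y531.Snet
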