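import Pool.Agent.Y531.Snet.Jets
import Pool.Agent.Y531.Sgen.Main

/-!
# The rank inequality for a polynomial which vanishes on the generator
-/

set_option autoImplicit false
set_option linter.unusedSectionVars false
set_option maxHeartbeats 1000000
set_option synthInstance.maxHeartbeats 200000

namespace Pool.Agent.Y531.Snet

open MvPolynomial Pool.Agent.W942 Pool.Agent.Y531 Pool.Agent.Y531.Mul Pool.Agent.Y531.Hit
open Pool.Agent.Y531.Hlim Pool.Agent.Y531.Sgen MeasureTheory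

variable {a b h q : ℕ}

/-- **The rank of a logarithmic derivative.** -/
theorem ld_rank {F : Type*} [Field F] {T₁ T₂ : ℕ} {ϑ Kc z : ℝ} (hϑ0 : 0 < ϑ) (hK : 1 ≤ Kc)
    (hz0 : 0 ≤ z) (hz1 : z ≤ 1) (hzs : NumScale a b h T₁ z) (hzT : z ^ T₂ ≤ ϑ)
    (hT₂ : T₂ ≤ a + b) {P L : SF (Fin b ⊕ Fin a) (FF a b h F)} {c : F}
    (hout : Good (bitFrame a b h) T₁ (Kc * ϑ) P) (hc : c ≠ 0)
    (hP0 : P ∅ = algebraMap F (FF a b h F) c) (i₀ : Fin b ⊕ Fin a)
    (hL : SF.dd i₀ P = L * SF.sg i₀ P) :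
    HasRkR (L (Finset.univ.erase i₀)) (2 ^ ((a + b) ^ 2) * (Kc * ϑ) * 2 ^ (b * (a * h))) := by
  classical
  have hcard : Fintype.card (Fin b ⊕ Fin a) = a + b := by
    rw [Fintype.card_sum, Fintype.card_fin, Fintype.card_fin, add_comm]
  set X : ℝ := Kc * ϑ with hX
  have hX0 : 0 ≤ X := by positivity
  have hϑX : ϑ ≤ X := le_mul_of_one_le_left hϑ0.le hK
  set B : Finset (Fin b ⊕ Fin a) := Finset.univ.erase i₀ with hB
  have hBi : i₀ ∉ B := Finset.notMem_erase _ _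
  have hBins : insert i₀ B = Finset.univ := Finset.insert_erase (Finset.mem_univ _)
  have hBc : B.card = a + b - 1 := by
    rw [hB, Finset.card_erase_of_mem (Finset.mem_univ _), Finset.card_univ, hcard]
  have hbd := LD.bd (triv_bitFrame a b h) hz0 hz1 hX0 (scale_of_num hzs) hout hc hP0
    (show LD i₀ P L from hL) B.card B rfl hBi
  rw [hBins] at hbd
  have hmax : max (z ^ (Finset.univ : Finset (Fin b ⊕ Fin a)).card) X = X := by
    refine max_eq_right ?_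
    rw [Finset.card_univ, hcard]
    exact ((pow_le_pow_of_le_one hz0 hz1 hT₂).trans hzT).trans hϑX
  have hwt : (bitFrame a b h).wt Finset.univ = 2 ^ (b * (a * h)) := by
    rw [wt_bitFrame]
    have h4 : lef (Finset.univ : Finset (Fin b ⊕ Fin a)) = b := by
      rw [lef, Finset.preimage_univ, Finset.card_univ, Fintype.card_fin]
    have h5 : rig (Finset.univ : Finset (Fin b ⊕ Fin a)) = a := by
      rw [rig, Finset.preimage_univ, Finset.card_univ, Fintype.card_fin]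
    rw [h4, h5]
    have h6 : a * h * b + b * h * a = 2 * (b * (a * h)) := by ring
    rw [h6, pow_mul, Real.sq_sqrt (by norm_num)]
  refine hbd.2.mono ?_
  rw [hmax, hwt, hBc]
  have h1 : (2:ℝ) ^ ((a + b - 1) ^ 2) ≤ 2 ^ ((a + b) ^ 2) :=
    pow_le_pow_right₀ (by norm_num) (Nat.pow_le_pow_left (Nat.sub_le _ _) 2)
  gcongr

/-- **The rank inequality.** -/
theorem hit_core {n κ₁ t L : ℕ} {T : ℕ → ℕ} {Kc : ℝ} [Nonempty (Fin n)]
    (hq : q.Prime) (ha : 0 < a) (hKc : 1 ≤ Kc)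
    (hT0 : T 0 = 2) (hTm : Monotone T) (hTK : T (κ₁ + 1) ≤ a + b)
    (hscale : ∀ k, k < κ₁ + 1 → ∃ z : ℝ, 0 ≤ z ∧ z ≤ 1 ∧ NumScale a b h (T k) z ∧
      z ^ (T (k + 1)) ≤ ((2:ℝ) ^ (a * h * L))⁻¹)
    (pos : Cell a b h → ZMod q) (hpos : Function.Injective pos) (hnq : n ≤ q ^ t)
    {f : MvPolynomial (Fin n) ℝ} (hf0 : f ≠ 0)
    (hgood : ∀ ϑ₀ : Fin n → SF (Fin b ⊕ Fin a) (FF a b h ℝ), (∀ j, ϑ₀ j ∅ = 0) →
      ∀ ϑ' : ℝ, ((2:ℝ) ^ (a * h * L))⁻¹ ≤ ϑ' →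
      (∀ j, Good (bitFrame a b h) (T 1) ϑ' (ϑ₀ j)) → ∃ S : Set (Fin n → ℝ), volume S ≠ 0 ∧
        ∀ x ∈ S, eval x f ≠ 0 ∧ Good (bitFrame a b h) (T κ₁) (Kc * ϑ')
          (thS (RingHom.id ℝ) (leafAt ϑ₀ x) f))
    (hzero : MvPolynomial.aeval (fun j : Fin n => G ℝ t pos j) f = 0) :
    (2:ℝ) ^ (a * h * L) ≤ ((a:ℝ) + b) * 2 ^ ((a + b) ^ 2) *
      (Kc * (((t:ℝ) + 1) ^ (a + b) * 2 ^ ((a + b) ^ 2))) := by
  classical
  obtain ⟨i, x, hP0, hPr⟩ := exists_hybrid pos hf0 hzero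
  set P := Hit.sub ℝ t pos i x f with hP
  set G' := G ℝ t pos (i : ℕ) with hG'
  obtain ⟨Q, hQ, hQnd⟩ := Polynomial.exists_eq_pow_rootMultiplicity_mul_and_not_dvd P hP0 G'
  have hr0 : P.rootMultiplicity G' ≠ 0 := by
    have := (Polynomial.rootMultiplicity_pos hP0).2 hPr
    omega
  have hQev : Q.eval G' ≠ 0 := fun h => hQnd (Polynomial.dvd_iff_isRoot.2 h)
  -- the base point
  obtain ⟨A', hA'⟩ := exists_int_point _ hQev
  set A : Cell a b h × ZMod q → ℝ := fun y => (A' y : ℝ) with hA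
  have hA1 : MvPolynomial.eval A (Q.eval G') ≠ 0 := hA'
  set g₀ : ℝ := MvPolynomial.eval A G' with hg₀
  set ζ : LaurentSeries ℝ := HahnSeries.C g₀ + tau ℝ with hζ
  have hcE : (P.map (MvPolynomial.eval A)).eval₂ (algebraMap ℝ (LaurentSeries ℝ)) ζ ≠ 0 := by
    refine eval₂_ne_zero ?_ g₀
    rw [hQ, Polynomial.map_mul, Polynomial.map_pow, Polynomial.map_sub, Polynomial.map_X,
      Polynomial.map_C]
    refine mul_ne_zero (pow_ne_zero _ (Polynomial.X_sub_C_ne_zero _)) ?_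
    intro h0
    apply hA1
    have h1 : MvPolynomial.eval A (Q.eval G') =
        (Q.map (MvPolynomial.eval A)).eval (MvPolynomial.eval A G') := by
      rw [Polynomial.eval_map, Polynomial.eval₂_at_apply]
    rw [h1, h0, Polynomial.eval_zero]
  -- the expansion
  set Lc := line q t pos (i : ℕ) with hLc
  have hth := thS_leaf A Lc t pos i x (RingHom.id ℝ) ζ f
  rw [MvPolynomial.map_id, RingHom.comp_id] at hth
  have hleaf0 := leaf_empty A Lc t pos i x ζ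
  set c₁ : Fin n → LaurentSeries ℝ := fun j => baseAt A t pos i x (LaurentSeries ℝ) ζ j with hc₁
  have hfc : f.eval₂ (algebraMap ℝ (LaurentSeries ℝ)) c₁ ≠ 0 := by
    have h1 := thS_empty (algebraMap ℝ (LaurentSeries ℝ))
      (leaf A Lc t pos i x (LaurentSeries ℝ) ζ) (z := c₁) hleaf0 f
    rw [hth, ← hP, zHom_empty] at h1
    have h2 := congrFun (congrFun h1 (fun _ => true)) (fun _ => true)
    have h3 : (P.map (MvPolynomial.eval A)).eval₂ (algebraMap ℝ (LaurentSeries ℝ)) ζ =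
        f.eval₂ (algebraMap ℝ (LaurentSeries ℝ)) c₁ := h2
    rw [← h3]
    exact hcE
  set ϑ : ℝ := ((2:ℝ) ^ (a * h * L))⁻¹ with hϑ
  have hϑ0 : 0 < ϑ := by positivity
  set κ : ℝ := ((t:ℝ) + 1) ^ (a + b) * 2 ^ ((a + b) ^ 2) with hκ
  have ht0 : (0:ℝ) ≤ t := Nat.cast_nonneg t
  have hκ1 : 1 ≤ κ := one_le_mul_of_one_le_of_one_le (one_le_pow₀ (by linarith))
    (one_le_pow₀ (by norm_num))
  have hκϑ : ϑ ≤ κ * ϑ := le_mul_of_one_le_left hϑ0.le hκ1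
  have hT1 : 2 ≤ T 1 := by
    have := hTm (Nat.zero_le 1)
    omega
  obtain ⟨z, hz0, hz1, hzs, hzT⟩ := hscale 0 (by omega)
  rw [hT0] at hzs
  set ϑ₀ : Fin n → SF (Fin b ⊕ Fin a) (FF a b h ℝ) := nilLeaf A Lc t pos i x with hϑ₀
  have h0 : ∀ j, ϑ₀ j ∅ = 0 := nilLeaf_empty A Lc t pos i x
  have hvar : ∀ j, Good (bitFrame a b h) (T 1) (κ * ϑ) (ϑ₀ j) := fun j => by
    have h1 := leaf_good' A t pos i x hq hpos hnq (le_trans one_le_two hT1) hz0 hz1 hϑ0.le hzs hzT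
      (0 : ℝ) j
    have h2 := Good_add_cst (le_trans one_le_two hT1) h1 (-(baseAt A t pos i x ℝ 0 j))
    have h3 : ϑ₀ j = leaf A Lc t pos i x ℝ 0 j +
        SF.cst (fun _ _ => -(baseAt A t pos i x ℝ 0 j)) := by
      rw [hϑ₀, nilLeaf, sub_eq_add_neg, ← map_neg]
      rfl
    rw [h3]
    exact h2
  let i₀ : Fin b ⊕ Fin a := Sum.inr ⟨0, ha⟩
  obtain ⟨LG, hLG⟩ := exists_gen (f := f) h0 i₀
  set ρ : ℝ := 2 ^ ((a + b) ^ 2) * (Kc * (κ * ϑ)) * 2 ^ (b * (a * h)) with hρ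
  -- the points of the set of positive measure
  obtain ⟨S, hSvol, hSg⟩ := hgood ϑ₀ h0 (κ * ϑ) hκϑ hvar
  have hSf : ∀ x ∈ S, eval x f ≠ 0 := fun x hx => (hSg x hx).1
  have hSrk : ∀ x (hx : x ∈ S), HasRk (fun u v => evAt (hSf x hx)
      (LG (Finset.univ.erase i₀) u v)) ⌊ρ⌋₊ := by
    intro x' hx
    have h1 := gen_at hLG (hSf x' hx)
    obtain ⟨z, hz0, hz1, hzs, hzT⟩ := hscale κ₁ (by omega)
    have h4 := ld_rank (F := ℝ) (T₁ := T κ₁) (T₂ := T (κ₁ + 1)) (ϑ := κ * ϑ)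
      (by positivity) hKc hz0 hz1 hzs (hzT.trans hκϑ) hTK (hSg x' hx).2 (hSf x' hx)
      (thS_empty (RingHom.id ℝ) (leafAt ϑ₀ x') (z := x') (fun j => by
        rw [leafAt, SF.add_def, h0, add_zero, SF.cst_apply, if_pos rfl]) f) i₀ h1
    obtain ⟨r, hr, hr'⟩ := h4
    refine HasRk.mono ?_ (Nat.le_floor hr')
    exact hr.congr fun u v => rfl
  -- the generic point near the root
  set φ₁ : Localization.Away f →+* LaurentSeries ℝ :=
    IsLocalization.Away.lift f (g := (MvPolynomial.eval₂Hom (algebraMap ℝ (LaurentSeries ℝ)) c₁))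
      (isUnit_iff_ne_zero.2 hfc) with hφ₁
  have hφ₁a : ∀ p : MvPolynomial (Fin n) ℝ,
      φ₁ (algebraMap (MvPolynomial (Fin n) ℝ) (Localization.Away f) p) =
      p.eval₂ (algebraMap ℝ (LaurentSeries ℝ)) c₁ := fun p =>
    IsLocalization.Away.lift_eq f _ p
  have hrk := transfer (LG (Finset.univ.erase i₀)) ⌊ρ⌋₊ hSvol hSf hSrk φ₁
  have h1 := hLG φ₁
  have h2 : φ₁.comp (cstR f) = algebraMap ℝ (LaurentSeries ℝ) := by
    refine RingHom.ext fun r => ?_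
    rw [RingHom.comp_apply, cstR_apply, hφ₁a, eval₂_C]
  have h3 : (fun j => SF.mapR (SF.push φ₁) (leafG f ϑ₀ j)) =
      leaf A Lc t pos i x (LaurentSeries ℝ) ζ := by
    funext j
    rw [leafG_map, h2, leaf_split, xR, hφ₁a, eval₂_X]
  rw [h2, h3, hth, ← hP] at h1
  have hρ0 : 0 ≤ ρ := by
    have : 0 ≤ Kc := zero_le_one.trans hKc
    positivity
  have hroot := root_step t pos (i : ℕ) A hr0 hQ hA1 hζ i₀ (SF.mapR (SF.push φ₁) LG) h1
    (ρ := ρ) ⟨⌊ρ⌋₊, hrk.congr fun u v => rfl, Nat.floor_le hρ0⟩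
  rw [hρ] at hroot
  set X : ℝ := Kc * (κ * ϑ) with hX
  have hpos2 : (0:ℝ) < 2 ^ (b * (a * h)) := by positivity
  have h5 : (1:ℝ) ≤ ((a:ℝ) + b) * (2 ^ ((a + b) ^ 2) * X) := by
    by_contra hcon
    rw [not_le] at hcon
    have h6 : ((a:ℝ) + b) * (2 ^ ((a + b) ^ 2) * X * 2 ^ (b * (a * h))) =
        (((a:ℝ) + b) * (2 ^ ((a + b) ^ 2) * X)) * 2 ^ (b * (a * h)) := by ring
    rw [h6] at hroot
    nlinarith
  have h7 : (0:ℝ) < 2 ^ (a * h * L) := by positivity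
  have h8 : ((a:ℝ) + b) * (2 ^ ((a + b) ^ 2) * X) = (((a:ℝ) + b) * 2 ^ ((a + b) ^ 2) *
      (Kc * κ)) / 2 ^ (a * h * L) := by
    rw [hX, hϑ]
    field_simp
  rw [h8, le_div_iff₀ h7, one_mul] at h5
  exact h5

end Pool.Agent.Y531.Snet
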