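import Pool.Agent.Y531.Snet.Model
import Pool.Agent.Y531.Smooth.Run

/-!
# Networks are covered by countably many differentiable functions
-/

set_option autoImplicit false
set_option linter.unusedSectionVars false

namespace Pool.Agent.Y531.Snet

open Topology Metric Pool.Agent.Y531.Smooth

variable {σ : Type} [Fintype σ] {s m d : ℕ} {cls : Set (MvPolynomial (Fin s) ℝ)}

/-- Operations which are defined everywhere. -/
inductive GOp (σ : Type) (s m d : ℕ) (cls : Set (MvPolynomial (Fin s) ℝ)) : Type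
  | fn (φ : (Fin m → ℝ) → ℝ) (smooth : ContDiff ℝ d φ) (arg : Fin m → Comb σ s) : GOp σ s m d cls
  | poly (p : MvPolynomial (Fin s) ℝ) (mem : p ∈ cls) (arg : Fin s → Comb σ s) : GOp σ s m d cls

/-- The value. -/
noncomputable def GOp.val : GOp σ s m d cls → (σ → ℝ) → (Fin s → ℝ) → ℝ
  | fn φ _ arg, x, v => φ fun j => (arg j).val x v
  | poly p _ arg, x, v => MvPolynomial.eval (fun j => (arg j).val x v) p

/-- The gate `i` occurs in the arguments of the operation. -/
def GOp.Reads (i : Fin s) : GOp σ s m d cls → Prop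
  | fn _ _ arg => ∃ j, (arg j).gate i ≠ 0
  | poly _ _ arg => ∃ j, (arg j).gate i ≠ 0

theorem GOp.val_congr {o : GOp σ s m d cls} {x : σ → ℝ} {v w : Fin s → ℝ}
    (h : ∀ i, o.Reads i → v i = w i) : o.val x v = o.val x w := by
  cases o with
  | fn φ smooth arg =>
    show φ _ = φ _
    congr 1
    funext j
    exact Comb.val_congr fun i hi => h i ⟨j, hi⟩
  | poly p mem arg =>
    show MvPolynomial.eval _ p = MvPolynomial.eval _ p
    congr 2
    funext j
    exact Comb.val_congr fun i hi => h i ⟨j, hi⟩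

theorem Op.exists_gops (o : Op σ s m d cls) : ∃ S : Set (GOp σ s m d cls), S.Countable ∧
    (∀ g ∈ S, ∀ i, g.Reads i → o.Reads i) ∧
    ∀ x v y, o.Gives x v y → ∃ g ∈ S, g.val x v = y := by
  cases o with
  | poly p mem arg =>
    refine ⟨{GOp.poly p mem arg}, Set.countable_singleton _, ?_, ?_⟩
    · rintro g rfl i h
      exact h
    · intro x v y h
      exact ⟨_, rfl, h.symm⟩
  | fn D φ isOpen smooth arg =>
    obtain ⟨S, hS, hS1, hS2⟩ := exists_cover isOpen smooth
    refine ⟨{g | ∃ (f : _) (hf : f ∈ S), g = GOp.fn f (hS1 f hf) arg}, ?_, ?_, ?_⟩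
    · have : Countable S := hS.to_subtype
      refine (Set.countable_range fun f : S => GOp.fn (f : (Fin m → ℝ) → ℝ) (hS1 f f.2)
        arg).mono ?_
      rintro g ⟨f, hf, rfl⟩
      exact ⟨⟨f, hf⟩, rfl⟩
    · rintro g ⟨f, hf, rfl⟩ i h
      exact h
    · rintro x v y ⟨h1, h2⟩
      obtain ⟨f, hf, hfy⟩ := hS2 _ h1
      exact ⟨_, ⟨f, hf, rfl⟩, hfy.trans h2.symm⟩

/-- The values after `t` rounds. -/
noncomputable def rounds (g : Fin s → GOp σ s m d cls) : ℕ → (σ → ℝ) → Fin s → ℝ
  | 0, _, _ => 0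
  | t + 1, x, i => (g i).val x (rounds g t x)

theorem rounds_eq {g : Fin s → GOp σ s m d cls} {depth : Fin s → ℕ}
    (hg : ∀ i i', (g i).Reads i' → depth i' < depth i) {x : σ → ℝ} {v : Fin s → ℝ}
    (hv : ∀ i, (g i).val x v = v i) : ∀ t i, depth i < t → rounds g t x i = v i := by
  intro t
  induction t with
  | zero => intro i hi; exact absurd hi (Nat.not_lt_zero _)
  | succ t ih =>
    intro i hi
    rw [← hv i]
    exact GOp.val_congr fun i' hi' => ih i' ((hg i i' hi').trans_le (Nat.lt_succ_iff.1 hi))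

/-- **Networks are covered by countably many differentiable functions.** -/
theorem Network.exists_rounds {Δ : ℕ} (P : Network σ s Δ m d cls) :
    ∃ S : Set ((Fin s → GOp σ s m d cls) × Comb σ s), S.Countable ∧
      ∀ x y, P.Outputs x y → ∃ p ∈ S, y = p.2.val x (rounds p.1 (Δ + 1) x) := by
  choose G hG1 hG2 hG3 using fun o : Op σ s m d cls => o.exists_gops
  refine ⟨(Set.univ.pi fun i => ⋃ o ∈ P.ops i, G o) ×ˢ P.out, ?_, ?_⟩
  · exact (Set.countable_univ_pi fun i => (P.countable_ops i).biUnion fun o _ => hG1 o).prod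
      P.countable_out
  · rintro x y ⟨v, hv, a, ha, rfl⟩
    choose o ho ho' using hv
    choose g hg hg' using fun i => hG3 (o i) x v (v i) (ho' i)
    refine ⟨(g, a), ⟨fun i _ => Set.mem_iUnion₂.2 ⟨o i, ho i, hg i⟩, ha⟩, ?_⟩
    have h1 : rounds g (Δ + 1) x = v := by
      funext i
      exact rounds_eq (depth := P.depth)
        (fun i i' h => P.reads i (o i) (ho i) i' (hG2 (o i) (g i) (hg i) i' h)) hg' (Δ + 1) i
        (Nat.lt_succ_of_le (P.depth_le i))
    rw [h1]

end Pool.Agent.Y531.Snet
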